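import Mathlib

/-!
Counting integers in an interval with prescribed residues modulo several primes.
-/

open Finset

namespace Pool.Agent.Helper9.CountCRT

lemma modEq_prod {D : Finset ℕ} (hD : ∀ p ∈ D, p.Prime) (a b : ℕ) :
    (∀ p ∈ D, a ≡ b [MOD p]) ↔ a ≡ b [MOD ∏ p ∈ D, p] := by
  classical
  induction D using Finset.induction_on with
  | empty => simp [Nat.modEq_one]
  | insert q D hq ih =>
    rw [Finset.prod_insert hq, Finset.forall_mem_insert]
    rw [ih (fun p hp => hD p (Finset.mem_insert_of_mem hp))]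
    apply Nat.modEq_and_modEq_iff_modEq_mul
    apply Nat.Coprime.prod_right
    intro p hp
    rw [Nat.coprime_primes (hD q (Finset.mem_insert_self _ _)) (hD p (Finset.mem_insert_of_mem hp))]
    rintro rfl
    exact hq hp

lemma count_class (n d v : ℕ) (hd : 0 < d) :
    |(((range n).filter (fun s => s ≡ v [MOD d])).card : ℝ) - (n : ℝ) / d| ≤ 1 := by
  have h1 := Nat.count_modEq_card n hd v
  rw [Nat.count_eq_card_filter_range] at h1
  rw [h1]
  have h2 : (n : ℝ) = d * (n / d : ℕ) + (n % d : ℕ) := by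
    exact_mod_cast (Nat.div_add_mod n d).symm
  have h3 : (n % d : ℕ) < d := Nat.mod_lt _ hd
  have hd' : (0 : ℝ) < d := by exact_mod_cast hd
  have h4 : (n : ℝ) / d = (n / d : ℕ) + ((n % d : ℕ) : ℝ) / d := by
    rw [div_eq_iff hd'.ne', add_mul, div_mul_cancel₀ _ hd'.ne']
    linarith
  rw [h4]
  have h5 : 0 ≤ ((n % d : ℕ) : ℝ) / d := by positivity
  have h6 : ((n % d : ℕ) : ℝ) / d ≤ 1 := by
    rw [div_le_one hd']; exact_mod_cast h3.le
  rw [abs_le]
  push_cast
  split_ifs <;> constructor <;> linarith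

lemma count_residues {D : Finset ℕ} (hD : ∀ p ∈ D, p.Prime) (c : ℕ → ℕ) (n : ℕ) :
    |(((range n).filter (fun s => ∀ p ∈ D, s ≡ c p [MOD p])).card : ℝ) -
      (n : ℝ) * ∏ p ∈ D, (1 : ℝ) / p| ≤ 1 := by
  have hpw : Set.Pairwise (D : Set ℕ) (Function.onFun Nat.Coprime (fun p : ℕ => p)) := by
    intro p hp q hq hpq
    exact (Nat.coprime_primes (hD p hp) (hD q hq)).2 hpq
  obtain ⟨v, hv⟩ := Nat.chineseRemainderOfFinset c (fun p => p) D
    (fun p hp => (hD p hp).ne_zero) hpw
  have e : (range n).filter (fun s => ∀ p ∈ D, s ≡ c p [MOD p]) =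
      (range n).filter (fun s => s ≡ v [MOD ∏ p ∈ D, p]) := by
    apply Finset.filter_congr
    intro s _
    rw [← modEq_prod hD]
    constructor
    · intro h p hp
      exact (h p hp).trans (hv p hp).symm
    · intro h p hp
      exact (h p hp).trans (hv p hp)
  rw [e]
  have hpos : 0 < ∏ p ∈ D, p := Finset.prod_pos (fun p hp => (hD p hp).pos)
  have := count_class n (∏ p ∈ D, p) v hpos
  have e2 : (n : ℝ) * ∏ p ∈ D, (1 : ℝ) / p = (n : ℝ) / ((∏ p ∈ D, p : ℕ) : ℝ) := by
    rw [Nat.cast_prod, div_eq_mul_inv, ← Finset.prod_inv_distrib]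
    congr 1
    apply Finset.prod_congr rfl
    intro p _
    rw [one_div]
  rw [e2]
  exact this

/-- count of the integers in `[0,n)` whose residue mod `p` lies in `Z p` for all `p ∈ D`. -/
theorem count_sets {D : Finset ℕ} (hD : ∀ p ∈ D, p.Prime) (Z : ℕ → Finset ℕ)
    (hZ : ∀ p ∈ D, Z p ⊆ range p) (n : ℕ) :
    |(((range n).filter (fun s => ∀ p ∈ D, s % p ∈ Z p)).card : ℝ) -
      (n : ℝ) * ∏ p ∈ D, ((Z p).card : ℝ) / p| ≤ ∏ p ∈ D, ((Z p).card : ℝ) := by
  classical
  set S := (range n).filter (fun s => ∀ p ∈ D, s % p ∈ Z p) with hS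
  have hmap : ∀ s ∈ S, (fun p (_ : p ∈ D) => s % p) ∈ D.pi Z := by
    intro s hs
    rw [Finset.mem_pi]
    intro p hp
    exact (Finset.mem_filter.1 hs).2 p hp
  have h1 := Finset.card_eq_sum_card_fiberwise (f := fun s => (fun p (_ : p ∈ D) => s % p))
    (s := S) (t := D.pi Z) hmap
  have h2 : ∀ c ∈ D.pi Z, |(((S.filter (fun s => (fun p (_ : p ∈ D) => s % p) = c)).card : ℕ) : ℝ) -
      (n : ℝ) * ∏ p ∈ D, (1 : ℝ) / p| ≤ 1 := by
    intro c hc
    rw [Finset.mem_pi] at hc
    have h3 := count_residues hD (fun p => if h : p ∈ D then c p h else 0) n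
    have e : S.filter (fun s => (fun p (_ : p ∈ D) => s % p) = c) =
        (range n).filter (fun s => ∀ p ∈ D, s ≡ (if h : p ∈ D then c p h else 0) [MOD p]) := by
      ext s
      rw [Finset.mem_filter, hS, Finset.mem_filter, Finset.mem_filter]
      constructor
      · rintro ⟨⟨h4, _⟩, h5⟩
        refine ⟨h4, ?_⟩
        intro p hp
        rw [dif_pos hp]
        have h6 := congrFun (congrFun h5 p) hp
        unfold Nat.ModEq
        rw [← h6, Nat.mod_mod]
      · rintro ⟨h4, h5⟩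
        have key : ∀ p (hp : p ∈ D), s % p = c p hp := by
          intro p hp
          have h6 := h5 p hp
          rw [dif_pos hp] at h6
          unfold Nat.ModEq at h6
          rw [h6]
          apply Nat.mod_eq_of_lt
          have := hZ p hp (hc p hp)
          exact Finset.mem_range.1 this
        refine ⟨⟨h4, ?_⟩, ?_⟩
        · intro p hp
          rw [key p hp]
          exact hc p hp
        · funext p hp
          exact key p hp
    rw [e]
    exact h3
  have hcard : ((D.pi Z).card : ℝ) = ∏ p ∈ D, ((Z p).card : ℝ) := by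
    rw [Finset.card_pi, Nat.cast_prod]
  have e3 : (n : ℝ) * ∏ p ∈ D, ((Z p).card : ℝ) / p =
      ∑ c ∈ D.pi Z, (n : ℝ) * ∏ p ∈ D, (1 : ℝ) / p := by
    rw [Finset.sum_const, nsmul_eq_mul, hcard]
    have : ∏ p ∈ D, ((Z p).card : ℝ) / p = (∏ p ∈ D, ((Z p).card : ℝ)) * ∏ p ∈ D, (1 : ℝ) / p := by
      rw [← Finset.prod_mul_distrib]
      apply Finset.prod_congr rfl
      intro p _
      ring
    rw [this]; ring
  rw [h1, e3]
  push_cast
  rw [← Finset.sum_sub_distrib]
  calc |∑ c ∈ D.pi Z, ((((S.filter (fun s => (fun p (_ : p ∈ D) => s % p) = c)).card : ℕ) : ℝ) -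
      (n : ℝ) * ∏ p ∈ D, (1 : ℝ) / p)| ≤ ∑ c ∈ D.pi Z,
      |(((S.filter (fun s => (fun p (_ : p ∈ D) => s % p) = c)).card : ℕ) : ℝ) -
      (n : ℝ) * ∏ p ∈ D, (1 : ℝ) / p| := Finset.abs_sum_le_sum_abs _ _
    _ ≤ ∑ c ∈ D.pi Z, (1 : ℝ) := Finset.sum_le_sum h2
    _ = ∏ p ∈ D, ((Z p).card : ℝ) := by rw [Finset.sum_const, nsmul_eq_mul, mul_one, hcard]

/-- residues `x` mod `p` with `p ∣ n^2 + x^2`. -/
def Z (n p : ℕ) : Finset ℕ := (range p).filter (fun x => p ∣ n ^ 2 + x ^ 2)

lemma Z_subset (n p : ℕ) : Z n p ⊆ range p := Finset.filter_subset _ _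

lemma mem_Z_mod (n p s : ℕ) (hp : 0 < p) : s % p ∈ Z n p ↔ p ∣ n ^ 2 + s ^ 2 := by
  unfold Z
  rw [Finset.mem_filter, Finset.mem_range]
  have h1 : s % p < p := Nat.mod_lt _ hp
  have h2 : n ^ 2 + (s % p) ^ 2 ≡ n ^ 2 + s ^ 2 [MOD p] :=
    Nat.ModEq.add_left _ ((Nat.mod_modEq s p).pow 2)
  constructor
  · rintro ⟨_, h⟩
    exact (h2.dvd_iff dvd_rfl).1 h
  · intro h
    exact ⟨h1, (h2.dvd_iff dvd_rfl).2 h⟩

lemma card_Z_of_dvd {n p : ℕ} (hp : p.Prime) (h : p ∣ n) : (Z n p).card = 1 := by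
  have : Z n p = {0} := by
    ext x
    unfold Z
    rw [Finset.mem_filter, Finset.mem_range, Finset.mem_singleton]
    constructor
    · rintro ⟨h1, h2⟩
      have h3 : p ∣ n ^ 2 := dvd_pow h (by norm_num)
      have h4 : p ∣ x ^ 2 := (Nat.dvd_add_right h3).1 h2
      have h5 : p ∣ x := hp.dvd_of_dvd_pow h4
      exact Nat.eq_zero_of_dvd_of_lt h5 h1
    · rintro rfl
      refine ⟨hp.pos, ?_⟩
      have h3 : p ∣ n ^ 2 := dvd_pow h (by norm_num)
      simpa using h3
  rw [this, Finset.card_singleton]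

lemma card_Z_of_one {n p : ℕ} (hp : p.Prime) (h1 : p % 4 = 1) (h : ¬ p ∣ n) : (Z n p).card = 2 := by
  have : Fact p.Prime := ⟨hp⟩
  have hsq : IsSquare (-1 : ZMod p) := by
    rw [ZMod.exists_sq_eq_neg_one_iff]; omega
  obtain ⟨i, hi⟩ := hsq
  have hn : (n : ZMod p) ≠ 0 := by
    rw [Ne, ZMod.natCast_eq_zero_iff]; exact h
  have hi0 : i ≠ 0 := by
    rintro rfl
    simp at hi
  have h2 : (2 : ZMod p) ≠ 0 := by
    have : ((2 : ℕ) : ZMod p) ≠ 0 := by
      rw [Ne, ZMod.natCast_eq_zero_iff]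
      intro h3
      have := Nat.le_of_dvd (by norm_num) h3
      have := hp.two_le
      omega
    exact_mod_cast this
  have hne : i * n ≠ -(i * n) := by
    intro h3
    have h4 : (2 : ZMod p) * (i * n) = 0 := by
      linear_combination h3
    rcases mul_eq_zero.1 h4 with h5 | h5
    · exact h2 h5
    · rcases mul_eq_zero.1 h5 with h6 | h6
      · exact hi0 h6
      · exact hn h6
  have hZ : Z n p = {(i * n : ZMod p).val, (-(i * n) : ZMod p).val} := by
    ext x
    unfold Z
    rw [Finset.mem_filter, Finset.mem_range, Finset.mem_insert, Finset.mem_singleton]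
    constructor
    · rintro ⟨h3, h4⟩
      have h5 : ((n ^ 2 + x ^ 2 : ℕ) : ZMod p) = 0 := by
        rw [ZMod.natCast_eq_zero_iff]; exact h4
      push_cast at h5
      have h6 : ((x : ZMod p) - i * n) * ((x : ZMod p) + i * n) = 0 := by
        linear_combination h5 + (n : ZMod p) ^ 2 * hi
      have hx : (x : ZMod p).val = x := by
        rw [ZMod.val_natCast, Nat.mod_eq_of_lt h3]
      rcases mul_eq_zero.1 h6 with h7 | h7
      · left
        have : (x : ZMod p) = i * n := by linear_combination h7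
        rw [← this, hx]
      · right
        have : (x : ZMod p) = -(i * n) := by linear_combination h7
        rw [← this, hx]
    · intro h3
      have h4 : x < p ∧ ((x : ZMod p) = i * n ∨ (x : ZMod p) = -(i * n)) := by
        rcases h3 with h3 | h3
        · rw [h3]
          refine ⟨ZMod.val_lt _, Or.inl ?_⟩
          exact ZMod.natCast_zmod_val _
        · rw [h3]
          refine ⟨ZMod.val_lt _, Or.inr ?_⟩
          exact ZMod.natCast_zmod_val _
      refine ⟨h4.1, ?_⟩
      rw [← ZMod.natCast_eq_zero_iff]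
      push_cast
      rcases h4.2 with h5 | h5
      · rw [h5]; linear_combination (-(n : ZMod p) ^ 2) * hi
      · rw [h5]; linear_combination (-(n : ZMod p) ^ 2) * hi
  rw [hZ, Finset.card_pair]
  intro h3
  exact hne (ZMod.val_injective p h3)

end Pool.Agent.Helper9.CountCRT
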