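import Mathlib

/-!
The function `r(k) = ∑_{d ∣ k} χ₄(d)` and sums of `r(k)/k` over integers with restricted
prime factors.
-/

open Finset

namespace Pool.Agent.Helper9.ChiSum

open ArithmeticFunction

/-- the nontrivial character mod 4 as an arithmetic function. -/
def chi : ArithmeticFunction ℤ := ⟨fun n => ZMod.χ₄ (n : ZMod 4), by decide⟩

lemma chi_apply (n : ℕ) : chi n = ZMod.χ₄ (n : ZMod 4) := rfl

lemma chi_mult : chi.IsMultiplicative := by
  refine ⟨by decide, ?_⟩
  intro m n _
  rw [chi_apply, chi_apply, chi_apply]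
  push_cast
  exact map_mul _ _ _

/-- `r(k) = ∑_{d ∣ k} χ₄(d)`. -/
def r : ArithmeticFunction ℤ := ((zeta : ArithmeticFunction ℕ) : ArithmeticFunction ℤ) * chi

lemma r_mult : r.IsMultiplicative := by
  unfold r
  exact (isMultiplicative_zeta.natCast).mul chi_mult

lemma r_apply (n : ℕ) : r n = ∑ d ∈ n.divisors, chi d := by
  unfold r
  rw [coe_zeta_mul_apply]

lemma r_pp {p : ℕ} (hp : p.Prime) (a : ℕ) : r (p ^ a) = ∑ j ∈ range (a + 1), (chi p) ^ j := by
  rw [r_apply, Nat.sum_divisors_prime_pow hp]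
  apply Finset.sum_congr rfl
  intro j _
  rw [chi_apply, chi_apply]
  push_cast
  exact map_pow _ _ _

lemma chi_one {p : ℕ} (h : p % 4 = 1) : chi p = 1 := by
  rw [chi_apply]; exact ZMod.χ₄_nat_one_mod_four h

lemma chi_three {p : ℕ} (h : p % 4 = 3) : chi p = -1 := by
  rw [chi_apply]; exact ZMod.χ₄_nat_three_mod_four h

lemma chi_two : chi 2 = 0 := by decide

lemma r_pp_one {p : ℕ} (hp : p.Prime) (h : p % 4 = 1) (a : ℕ) : r (p ^ a) = a + 1 := by
  rw [r_pp hp, chi_one h]; simp

lemma r_pp_three {p : ℕ} (hp : p.Prime) (h : p % 4 = 3) (a : ℕ) :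
    r (p ^ a) = if Even a then 1 else 0 := by
  rw [r_pp hp, chi_three h]
  induction a with
  | zero => simp
  | succ a ih =>
    rw [Finset.sum_range_succ, ih]
    by_cases ha : Even a
    · have : ¬ Even (a + 1) := by
        rw [Nat.even_add_one, not_not]; exact ha
      rw [if_pos ha, if_neg this]
      have h2 : Odd (a + 1) := Nat.not_even_iff_odd.1 this
      rw [h2.neg_one_pow]; norm_num
    · have : Even (a + 1) := by
        rw [Nat.even_add_one]; exact ha
      rw [if_neg ha, if_pos this, this.neg_one_pow]; norm_num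

lemma r_pp_two (a : ℕ) : r (2 ^ a) = 1 := by
  rw [r_pp Nat.prime_two, chi_two]
  rw [Finset.sum_range_succ']
  simp

lemma r_split {p : ℕ} (hp : p.Prime) (a m : ℕ) (hm : ¬ p ∣ m) :
    r (p ^ a * m) = r (p ^ a) * r m := by
  apply r_mult.map_mul_of_coprime
  exact ((Nat.Prime.coprime_iff_not_dvd hp).2 hm).pow_left a

lemma r_nonneg (n : ℕ) : 0 ≤ r n := by
  induction n using Nat.recOnPosPrimePosCoprime with
  | prime_pow p n hp hn =>
    by_cases h2 : p = 2
    · subst h2; rw [r_pp_two]; norm_num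
    · have hodd := hp.eq_two_or_odd
      have : p % 4 = 1 ∨ p % 4 = 3 := by omega
      rcases this with h | h
      · rw [r_pp_one hp h]; positivity
      · rw [r_pp_three hp h]; split_ifs <;> norm_num
  | zero => simp
  | one => rw [r_mult.map_one]; norm_num
  | coprime a b _ _ hab iha ihb =>
    rw [r_mult.map_mul_of_coprime hab]
    exact mul_nonneg iha ihb

lemma r_mul_one {p : ℕ} (hp : p.Prime) (h : p % 4 = 1) {k : ℕ} (hk : k ≠ 0) :
    r (p * k) ≤ 2 * r k := by
  obtain ⟨a, m, hm, rfl⟩ := Nat.exists_eq_pow_mul_and_not_dvd hk p hp.ne_one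
  have e : p * (p ^ a * m) = p ^ (a + 1) * m := by ring
  rw [e, r_split hp _ _ hm, r_split hp _ _ hm, r_pp_one hp h, r_pp_one hp h]
  have := r_nonneg m
  push_cast
  nlinarith [this, (Nat.cast_nonneg a : (0 : ℤ) ≤ a)]

lemma r_mul_two {k : ℕ} (hk : k ≠ 0) : r (2 * k) = r k := by
  obtain ⟨a, m, hm, rfl⟩ := Nat.exists_eq_pow_mul_and_not_dvd hk 2 (by norm_num)
  have e : 2 * (2 ^ a * m) = 2 ^ (a + 1) * m := by ring
  rw [e, r_split Nat.prime_two _ _ hm, r_split Nat.prime_two _ _ hm, r_pp_two, r_pp_two]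

lemma r_mul_three_sq {p : ℕ} (hp : p.Prime) (h : p % 4 = 3) {k : ℕ} (hk : k ≠ 0) :
    r (p * (p * k)) = r k := by
  obtain ⟨a, m, hm, rfl⟩ := Nat.exists_eq_pow_mul_and_not_dvd hk p hp.ne_one
  have e : p * (p * (p ^ a * m)) = p ^ (a + 2) * m := by ring
  rw [e, r_split hp _ _ hm, r_split hp _ _ hm, r_pp_three hp h, r_pp_three hp h]
  have : Even (a + 2) ↔ Even a := by
    constructor <;> intro h <;> · rcases h with ⟨c, hc⟩; first | exact ⟨c - 1, by omega⟩ | exact ⟨c + 1, by omega⟩
  simp [this]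

lemma r_mul_three {p : ℕ} (hp : p.Prime) (h : p % 4 = 3) {k : ℕ} (hk : ¬ p ∣ k) :
    r (p * k) = 0 := by
  have := r_split hp 1 k hk
  rw [pow_one] at this
  rw [this]
  have e := r_pp_three hp h 1
  rw [pow_one] at e
  rw [e]; simp

/-- integers in `[1,x]` all of whose prime factors are in `S`. -/
def K (S : Finset ℕ) (x : ℕ) : Finset ℕ := (Icc 1 x).filter (fun k => k.primeFactors ⊆ S)

/-- sum of `F` over `K S x`. -/
noncomputable def T (F : ℕ → ℝ) (S : Finset ℕ) (x : ℕ) : ℝ := ∑ k ∈ K S x, F k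

lemma mem_K {S : Finset ℕ} {x k : ℕ} : k ∈ K S x ↔ (1 ≤ k ∧ k ≤ x) ∧ k.primeFactors ⊆ S := by
  unfold K
  rw [Finset.mem_filter, Finset.mem_Icc]

lemma K_mono {S : Finset ℕ} {x y : ℕ} (h : x ≤ y) : K S x ⊆ K S y := by
  intro k hk
  rw [mem_K] at hk ⊢
  exact ⟨⟨hk.1.1, hk.1.2.trans h⟩, hk.2⟩

lemma T_mono {F : ℕ → ℝ} (hF : ∀ k, 0 ≤ F k) {S : Finset ℕ} {x y : ℕ} (h : x ≤ y) :
    T F S x ≤ T F S y := by
  apply Finset.sum_le_sum_of_subset_of_nonneg (K_mono h)
  intro k _ _
  exact hF k

lemma T_nonneg {F : ℕ → ℝ} (hF : ∀ k, 0 ≤ F k) (S : Finset ℕ) (x : ℕ) : 0 ≤ T F S x :=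
  Finset.sum_nonneg (fun k _ => hF k)

lemma T_split (F : ℕ → ℝ) {S : Finset ℕ} {p : ℕ} (hp : p.Prime) (hpS : p ∉ S) (x : ℕ) :
    T F (insert p S) x = T F S x + ∑ k ∈ K (insert p S) (x / p), F (p * k) := by
  classical
  have e : K (insert p S) x = K S x ∪ (K (insert p S) (x / p)).image (fun k => p * k) := by
    ext k
    rw [Finset.mem_union, Finset.mem_image]
    constructor
    · intro hk
      rw [mem_K] at hk
      by_cases hd : p ∣ k
      · right
        obtain ⟨l, rfl⟩ := hd
        refine ⟨l, ?_, rfl⟩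
        rw [mem_K]
        have hl : l ≠ 0 := by
          rintro rfl
          simp at hk
        refine ⟨⟨Nat.one_le_iff_ne_zero.2 hl, ?_⟩, ?_⟩
        · rw [Nat.le_div_iff_mul_le hp.pos, mul_comm]
          exact hk.1.2
        · exact (Nat.primeFactors_mono (Dvd.intro_left p rfl)
            (Nat.mul_ne_zero hp.ne_zero hl)).trans hk.2
      · left
        rw [mem_K]
        refine ⟨hk.1, ?_⟩
        intro q hq
        have h1 := hk.2 hq
        rw [Finset.mem_insert] at h1
        rcases h1 with h1 | h1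
        · subst h1
          exact absurd (Nat.dvd_of_mem_primeFactors hq) hd
        · exact h1
    · rintro (hk | ⟨l, hl, rfl⟩)
      · rw [mem_K] at hk ⊢
        exact ⟨hk.1, hk.2.trans (Finset.subset_insert _ _)⟩
      · rw [mem_K] at hl ⊢
        have hl0 : l ≠ 0 := by omega
        refine ⟨⟨?_, ?_⟩, ?_⟩
        · exact Nat.one_le_iff_ne_zero.2 (Nat.mul_ne_zero hp.ne_zero hl0)
        · have := (Nat.le_div_iff_mul_le hp.pos).1 hl.1.2
          rwa [mul_comm]
        · rw [Nat.primeFactors_mul hp.ne_zero hl0, hp.primeFactors]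
          apply Finset.union_subset
          · intro q hq
            rw [Finset.mem_singleton] at hq
            rw [hq]; exact Finset.mem_insert_self _ _
          · exact hl.2
  have hdisj : Disjoint (K S x) ((K (insert p S) (x / p)).image (fun k => p * k)) := by
    rw [Finset.disjoint_left]
    intro k hk hk'
    rw [Finset.mem_image] at hk'
    obtain ⟨l, hl, rfl⟩ := hk'
    rw [mem_K] at hk hl
    have : p ∈ (p * l).primeFactors := by
      rw [Nat.mem_primeFactors]
      exact ⟨hp, Dvd.intro _ rfl, Nat.mul_ne_zero hp.ne_zero (by omega)⟩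
    exact hpS (hk.2 this)
  unfold T
  rw [e, Finset.sum_union hdisj, Finset.sum_image]
  intro a _ b _ hab
  exact Nat.eq_of_mul_eq_mul_left hp.pos hab

/-- the summand `r(k)/k`. -/
noncomputable def F (k : ℕ) : ℝ := (r k : ℝ) / k

lemma F_nonneg (k : ℕ) : 0 ≤ F k := by
  unfold F
  have := r_nonneg k
  have h2 : (0 : ℝ) ≤ (r k : ℝ) := by exact_mod_cast this
  positivity

/-- adding a prime `p ≡ 1 (mod 4)`. -/
lemma T_insert_one {S : Finset ℕ} {p : ℕ} (hp : p.Prime) (h : p % 4 = 1) (hpS : p ∉ S) (x : ℕ) :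
    T F (insert p S) x ≤ T F S x + 2 / ((p : ℝ) - 2) * T F S (x / p) := by
  have hp5 : 5 ≤ p := by
    have := hp.two_le
    by_contra hlt
    push Not at hlt
    interval_cases p <;> omega
  have hp5' : (5 : ℝ) ≤ p := by exact_mod_cast hp5
  have key : ∀ y, T F (insert p S) y ≤ T F S y + 2 / (p : ℝ) * T F (insert p S) (y / p) := by
    intro y
    rw [T_split F hp hpS y]
    gcongr
    unfold T
    rw [Finset.mul_sum]
    apply Finset.sum_le_sum
    intro k hk
    rw [mem_K] at hk
    have hk0 : k ≠ 0 := by omega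
    have h1 := r_mul_one hp h hk0
    have h2 : (r (p * k) : ℝ) ≤ 2 * r k := by exact_mod_cast h1
    unfold F
    have hk' : (0 : ℝ) < k := by
      have : 0 < k := by omega
      exact_mod_cast this
    push_cast
    rw [div_mul_div_comm, div_le_div_iff_of_pos_right (by positivity)]
    exact h2
  have h3 := key (x / p)
  have h4 : T F (insert p S) (x / p / p) ≤ T F (insert p S) (x / p) :=
    T_mono F_nonneg (Nat.div_le_self _ _)
  have h5 : 2 / (p : ℝ) * T F (insert p S) (x / p / p) ≤ 2 / (p : ℝ) * T F (insert p S) (x / p) := by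
    apply mul_le_mul_of_nonneg_left h4; positivity
  have h6 : T F (insert p S) (x / p) * (1 - 2 / (p : ℝ)) ≤ T F S (x / p) := by linarith
  have h7 : 2 / (p : ℝ) * T F (insert p S) (x / p) ≤ 2 / ((p : ℝ) - 2) * T F S (x / p) := by
    have e : 2 / (p : ℝ) * T F (insert p S) (x / p) =
        2 / ((p : ℝ) - 2) * (T F (insert p S) (x / p) * (1 - 2 / (p : ℝ))) := by
      have : (p : ℝ) - 2 ≠ 0 := by linarith
      field_simp
    rw [e]
    apply mul_le_mul_of_nonneg_left h6
    apply div_nonneg (by norm_num); linarith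
  linarith [key x]

/-- adding a prime `p ≡ 3 (mod 4)`. -/
lemma T_insert_three {S : Finset ℕ} {p : ℕ} (hp : p.Prime) (h : p % 4 = 3) (hpS : p ∉ S) (x : ℕ) :
    T F (insert p S) x ≤ (1 - 1 / (p : ℝ) ^ 2)⁻¹ * T F S x := by
  classical
  have hp3 : 3 ≤ p := by
    have := hp.two_le
    by_contra hlt
    push Not at hlt
    interval_cases p; omega
  have hp3' : (3 : ℝ) ≤ p := by exact_mod_cast hp3
  have key : ∑ k ∈ K (insert p S) (x / p), F (p * k) ≤ 1 / (p : ℝ) ^ 2 * T F (insert p S) x := by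
    -- only multiples of p contribute
    have e : ∑ k ∈ K (insert p S) (x / p), F (p * k) =
        ∑ k ∈ (K (insert p S) (x / p)).filter (fun k => p ∣ k), F (p * k) := by
      rw [Finset.sum_filter]
      apply Finset.sum_congr rfl
      intro k hk
      split_ifs with hd
      · rfl
      · unfold F
        rw [r_mul_three hp h hd]; simp
    rw [e]
    unfold T
    rw [Finset.mul_sum]
    have himg : ∀ k ∈ (K (insert p S) (x / p)).filter (fun k => p ∣ k), k / p ∈ K (insert p S) x := by
      intro k hk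
      rw [Finset.mem_filter, mem_K] at hk
      obtain ⟨⟨⟨h1, h2⟩, h3⟩, l, rfl⟩ := hk
      have hl0 : l ≠ 0 := by rintro rfl; simp at h1
      rw [Nat.mul_div_cancel_left _ hp.pos, mem_K]
      refine ⟨⟨Nat.one_le_iff_ne_zero.2 hl0, ?_⟩, ?_⟩
      · calc l ≤ p * l := Nat.le_mul_of_pos_left _ hp.pos
          _ ≤ x / p := h2
          _ ≤ x := Nat.div_le_self _ _
      · exact (Nat.primeFactors_mono (Dvd.intro_left p rfl)
            (Nat.mul_ne_zero hp.ne_zero hl0)).trans h3
    have hinj : Set.InjOn (fun k => k / p)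
        (((K (insert p S) (x / p)).filter (fun k => p ∣ k) : Finset ℕ) : Set ℕ) := by
      intro a ha b hb hab
      rw [Finset.mem_coe, Finset.mem_filter] at ha hb
      obtain ⟨_, c, rfl⟩ := ha
      obtain ⟨_, d, rfl⟩ := hb
      simp only [Nat.mul_div_cancel_left _ hp.pos] at hab
      rw [hab]
    calc ∑ k ∈ (K (insert p S) (x / p)).filter (fun k => p ∣ k), F (p * k)
        = ∑ k ∈ (K (insert p S) (x / p)).filter (fun k => p ∣ k), 1 / (p : ℝ) ^ 2 * F (k / p) := by
          apply Finset.sum_congr rfl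
          intro k hk
          rw [Finset.mem_filter, mem_K] at hk
          obtain ⟨⟨⟨h1, _⟩, _⟩, l, rfl⟩ := hk
          have hl0 : l ≠ 0 := by rintro rfl; simp at h1
          rw [Nat.mul_div_cancel_left _ hp.pos]
          unfold F
          rw [r_mul_three_sq hp h hl0]
          have : (l : ℝ) ≠ 0 := by exact_mod_cast hl0
          push_cast
          field_simp
      _ = ∑ l ∈ ((K (insert p S) (x / p)).filter (fun k => p ∣ k)).image (fun k => k / p),
            1 / (p : ℝ) ^ 2 * F l := by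
          rw [Finset.sum_image hinj]
      _ ≤ ∑ l ∈ K (insert p S) x, 1 / (p : ℝ) ^ 2 * F l := by
          apply Finset.sum_le_sum_of_subset_of_nonneg
          · intro l hl
            rw [Finset.mem_image] at hl
            obtain ⟨k, hk, rfl⟩ := hl
            exact himg k hk
          · intro l _ _
            have := F_nonneg l
            positivity
  have h1 := T_split F hp hpS x
  have h2 : T F (insert p S) x * (1 - 1 / (p : ℝ) ^ 2) ≤ T F S x := by linarith
  have h3 : 0 < 1 - 1 / (p : ℝ) ^ 2 := by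
    have : 1 / (p : ℝ) ^ 2 < 1 := by
      rw [div_lt_one (by positivity)]; nlinarith
    linarith
  rw [inv_mul_eq_div, le_div_iff₀ h3]
  exact h2

/-- adding the prime 2. -/
lemma T_insert_two {S : Finset ℕ} (hpS : 2 ∉ S) (x : ℕ) :
    T F (insert 2 S) x ≤ 2 * T F S x := by
  have h1 := T_split F Nat.prime_two hpS x
  have h2 : ∑ k ∈ K (insert 2 S) (x / 2), F (2 * k) ≤ 1 / 2 * T F (insert 2 S) x := by
    have : ∑ k ∈ K (insert 2 S) (x / 2), F (2 * k) = 1 / 2 * T F (insert 2 S) (x / 2) := by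
      unfold T
      rw [Finset.mul_sum]
      apply Finset.sum_congr rfl
      intro k hk
      rw [mem_K] at hk
      unfold F
      rw [r_mul_two (by omega)]
      push_cast
      rw [div_mul_div_comm, one_mul]
    rw [this]
    apply mul_le_mul_of_nonneg_left _ (by norm_num)
    exact T_mono F_nonneg (Nat.div_le_self _ _)
  linarith

end Pool.Agent.Helper9.ChiSum
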