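import Mathlib
import Pool.Agent.Helper9.ChiSum

/-!
`∑_{k ≤ N} r(k)/k` is between `(2/3) log(N+1)` and `1 + log N`.
-/

open Finset

namespace Pool.Agent.Helper9.ChiHarm

open ArithmeticFunction ChiSum

/-- `1/n`. -/
noncomputable def f1 : ArithmeticFunction ℝ := ⟨fun n => (1 : ℝ) / n, by simp⟩

/-- `χ(n)/n`. -/
noncomputable def f2 : ArithmeticFunction ℝ := ⟨fun n => (chi n : ℝ) / n, by simp⟩

lemma f1_apply (n : ℕ) : f1 n = (1 : ℝ) / n := rfl
lemma f2_apply (n : ℕ) : f2 n = (chi n : ℝ) / n := rfl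

lemma f1_mul_f2 (n : ℕ) : (f1 * f2) n = F n := by
  rw [ArithmeticFunction.mul_apply]
  unfold F
  rw [r_apply]
  push_cast
  rw [Finset.sum_div, Nat.sum_divisorsAntidiagonal' (f := fun x y => f1 x * f2 y)]
  apply Finset.sum_congr rfl
  intro d hd
  rw [Nat.mem_divisors] at hd
  rw [f1_apply, f2_apply]
  obtain ⟨⟨e, rfl⟩, hn⟩ := hd
  have hd0 : d ≠ 0 := by rintro rfl; simp at hn
  have he0 : e ≠ 0 := by rintro rfl; simp at hn
  rw [Nat.mul_div_cancel_left _ (Nat.pos_of_ne_zero hd0)]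
  have h1 : (d : ℝ) ≠ 0 := by exact_mod_cast hd0
  have h2 : (e : ℝ) ≠ 0 := by exact_mod_cast he0
  push_cast
  field_simp

/-- partial sums of `χ(m)/m`. -/
noncomputable def s (M : ℕ) : ℝ := ∑ m ∈ Ioc 0 M, f2 m

lemma s_succ (M : ℕ) : s (M + 1) = s M + f2 (M + 1) := by
  unfold s
  rw [Finset.sum_Ioc_succ_top (Nat.zero_le _)]

lemma s_block (j : ℕ) : s (4 * j + 1) = s (4 * j) + 1 / (4 * j + 1) ∧
    s (4 * j + 2) = s (4 * j) + 1 / (4 * j + 1) ∧
    s (4 * j + 3) = s (4 * j) + 1 / (4 * j + 1) - 1 / (4 * j + 3) ∧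
    s (4 * j + 4) = s (4 * j) + 1 / (4 * j + 1) - 1 / (4 * j + 3) := by
  have c1 : chi (4 * j + 1) = 1 := chi_one (by omega)
  have c3 : chi (4 * j + 3) = -1 := chi_three (by omega)
  have c2 : chi (4 * j + 2) = 0 := by
    rw [chi_apply, ZMod.χ₄_nat_mod_four, show (4 * j + 2) % 4 = 2 by omega]; decide
  have c4 : chi (4 * j + 4) = 0 := by
    rw [chi_apply, ZMod.χ₄_nat_mod_four, show (4 * j + 4) % 4 = 0 by omega]; decide
  have e1 : s (4 * j + 1) = s (4 * j) + 1 / (4 * j + 1) := by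
    rw [s_succ, f2_apply, c1]; push_cast; ring
  have e2 : s (4 * j + 2) = s (4 * j) + 1 / (4 * j + 1) := by
    rw [s_succ, f2_apply, c2, e1]; simp
  have e3 : s (4 * j + 3) = s (4 * j) + 1 / (4 * j + 1) - 1 / (4 * j + 3) := by
    rw [s_succ, f2_apply, c3, e2]; push_cast; ring
  have e4 : s (4 * j + 4) = s (4 * j) + 1 / (4 * j + 1) - 1 / (4 * j + 3) := by
    rw [s_succ, f2_apply, c4, e3]; simp
  exact ⟨e1, e2, e3, e4⟩

lemma s_four (j : ℕ) : 2 / 3 ≤ s (4 * (j + 1)) ∧ s (4 * (j + 1)) ≤ 1 - 1 / (4 * (j : ℝ) + 3) := by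
  induction j with
  | zero =>
    have h := (s_block 0).2.2.2
    have h0 : s (4 * 0) = 0 := by unfold s; simp
    rw [h0] at h
    have e : 4 * (0 + 1) = 4 * 0 + 4 := by norm_num
    rw [e, h]
    norm_num
  | succ j ih =>
    have h := (s_block (j + 1)).2.2.2
    have e : 4 * (j + 1 + 1) = 4 * (j + 1) + 4 := by ring
    rw [e, h]
    push_cast
    have hj : (0 : ℝ) ≤ j := Nat.cast_nonneg j
    have h1 : (1 : ℝ) / (4 * (j + 1) + 3) ≤ 1 / (4 * (j + 1) + 1) := by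
      apply one_div_le_one_div_of_le <;> linarith
    have h2 : (1 : ℝ) / (4 * (j + 1) + 1) ≤ 1 / (4 * j + 3) := by
      apply one_div_le_one_div_of_le <;> linarith
    constructor
    · linarith [ih.1]
    · linarith [ih.2]

lemma s_bounds (M : ℕ) (hM : 1 ≤ M) : 2 / 3 ≤ s M ∧ s M ≤ 1 := by
  obtain ⟨j, i, hi, rfl⟩ : ∃ j i, i < 4 ∧ M = 4 * j + i := ⟨M / 4, M % 4, Nat.mod_lt _ (by norm_num), by omega⟩
  obtain ⟨b1, b2, b3, b4⟩ := s_block j
  have hj : (0 : ℝ) ≤ j := Nat.cast_nonneg j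
  have h13 : (1 : ℝ) / (4 * j + 3) ≤ 1 / (4 * j + 1) := by
    apply one_div_le_one_div_of_le <;> linarith
  have h11 : (1 : ℝ) / (4 * j + 1) ≤ 1 := by
    rw [div_le_one (by linarith)]; linarith
  have hp1 : (0 : ℝ) < 1 / (4 * j + 1) := by positivity
  have hp3 : (0 : ℝ) < 1 / (4 * j + 3) := by positivity
  -- bounds for s (4 j)
  have h4 : (j = 0 ∧ s (4 * j) = 0) ∨ (2 / 3 ≤ s (4 * j) ∧ s (4 * j) + 1 / (4 * j + 1) ≤ 1) := by
    rcases Nat.eq_zero_or_pos j with h | h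
    · left; subst h; exact ⟨rfl, by unfold s; simp⟩
    · right
      obtain ⟨l, rfl⟩ : ∃ l, j = l + 1 := ⟨j - 1, by omega⟩
      have := s_four l
      refine ⟨this.1, ?_⟩
      push_cast
      have hl : (0 : ℝ) ≤ l := Nat.cast_nonneg l
      have h5 : (1 : ℝ) / (4 * (l + 1) + 1) ≤ 1 / (4 * l + 3) := by
        apply one_div_le_one_div_of_le <;> linarith
      linarith [this.2]
  have h44 := (s_four j).1
  have e44 : 4 * (j + 1) = 4 * j + 4 := by ring
  rw [e44] at h44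
  interval_cases i
  · rcases h4 with ⟨h, _⟩ | h
    · subst h; omega
    · rw [Nat.add_zero]; exact ⟨h.1, by linarith [h.2]⟩
  · rw [b1]
    rcases h4 with ⟨h, h'⟩ | h
    · subst h; rw [h']; norm_num
    · exact ⟨by linarith [h.1], h.2⟩
  · rw [b2]
    rcases h4 with ⟨h, h'⟩ | h
    · subst h; rw [h']; norm_num
    · exact ⟨by linarith [h.1], h.2⟩
  · rw [b4, ← b3] at h44
    refine ⟨h44, ?_⟩
    rw [b3]
    rcases h4 with ⟨h, h'⟩ | h
    · subst h; rw [h']; norm_num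
    · linarith [h.2]

lemma sum_F (N : ℕ) : ∑ k ∈ Ioc 0 N, F k = ∑ n ∈ Ioc 0 N, (1 : ℝ) / n * s (N / n) := by
  have h := ArithmeticFunction.sum_Ioc_mul_eq_sum_sum f1 f2 N
  have e : ∑ k ∈ Ioc 0 N, F k = ∑ n ∈ Ioc 0 N, (f1 * f2) n := by
    apply Finset.sum_congr rfl
    intro k _
    rw [f1_mul_f2]
  rw [e, h]
  rfl

lemma harm (N : ℕ) : ∑ n ∈ Ioc 0 N, (1 : ℝ) / n = (harmonic N : ℝ) := by
  rw [harmonic_eq_sum_Icc]
  push_cast
  have : Ioc 0 N = Icc 1 N := by ext; simp [Finset.mem_Ioc, Finset.mem_Icc]; omega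
  rw [this]
  apply Finset.sum_congr rfl
  intro n _
  rw [one_div]

lemma lower (N : ℕ) : 2 / 3 * Real.log (N + 1) ≤ ∑ k ∈ Ioc 0 N, F k := by
  rw [sum_F]
  calc 2 / 3 * Real.log (N + 1) ≤ 2 / 3 * (harmonic N : ℝ) := by
        have := log_add_one_le_harmonic N
        push_cast at this
        linarith
    _ = ∑ n ∈ Ioc 0 N, (1 : ℝ) / n * (2 / 3) := by rw [← harm, ← Finset.sum_mul]; ring
    _ ≤ _ := by
        apply Finset.sum_le_sum
        intro n hn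
        rw [Finset.mem_Ioc] at hn
        apply mul_le_mul_of_nonneg_left _ (by positivity)
        apply (s_bounds _ _).1
        exact Nat.div_pos hn.2 hn.1

lemma upper (N : ℕ) : ∑ k ∈ Ioc 0 N, F k ≤ 1 + Real.log N := by
  rw [sum_F]
  calc ∑ n ∈ Ioc 0 N, (1 : ℝ) / n * s (N / n) ≤ ∑ n ∈ Ioc 0 N, (1 : ℝ) / n * 1 := by
        apply Finset.sum_le_sum
        intro n hn
        rw [Finset.mem_Ioc] at hn
        apply mul_le_mul_of_nonneg_left _ (by positivity)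
        apply (s_bounds _ _).2
        exact Nat.div_pos hn.2 hn.1
    _ = (harmonic N : ℝ) := by rw [← harm]; simp
    _ ≤ 1 + Real.log N := harmonic_le_one_add_log N

lemma T_primes (G : ℕ → ℝ) (N M : ℕ) (h : N < M) :
    T G ((range M).filter Nat.Prime) N = ∑ k ∈ Ioc 0 N, G k := by
  unfold T
  apply Finset.sum_congr _ (fun _ _ => rfl)
  ext k
  rw [mem_K, Finset.mem_Ioc]
  constructor
  · rintro ⟨⟨h1, h2⟩, _⟩; omega
  · rintro ⟨h1, h2⟩
    refine ⟨⟨by omega, h2⟩, ?_⟩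
    intro q hq
    rw [Finset.mem_filter, Finset.mem_range]
    have h3 := Nat.le_of_mem_primeFactors hq
    exact ⟨by omega, Nat.prime_of_mem_primeFactors hq⟩

end Pool.Agent.Helper9.ChiHarm
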