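import Mathlib

/-!
A self-contained finite version of the Selberg upper bound sieve.
-/

open Finset

namespace Pool.Agent.Helper9.Selberg

variable (P : Finset ℕ) (ρ : ℕ → ℕ) (R : ℕ)

/-- the family of subsets of `P` with product at most `R`. -/
def fam : Finset (Finset ℕ) := P.powerset.filter (fun D => ∏ p ∈ D, p ≤ R)

/-- local densities. -/
noncomputable def w (D : Finset ℕ) : ℝ := ∏ p ∈ D, ((ρ p : ℝ) / p)

/-- Selberg's function `g`. -/
noncomputable def g (D : Finset ℕ) : ℝ := ∏ p ∈ D, ((ρ p : ℝ) / (p - ρ p))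

/-- the Selberg sum. -/
noncomputable def G : ℝ := ∑ D ∈ fam P R, g ρ D

/-- the Selberg weights. -/
noncomputable def lam (D : Finset ℕ) : ℝ :=
  (-1) ^ D.card * (1 / (w ρ D * G P ρ R)) * ∑ K ∈ (fam P R).filter (fun K => D ⊆ K), g ρ K

variable {P ρ R}

lemma mem_fam {D : Finset ℕ} : D ∈ fam P R ↔ D ⊆ P ∧ ∏ p ∈ D, p ≤ R := by
  unfold fam
  rw [Finset.mem_filter, Finset.mem_powerset]

lemma fam_down (hP : ∀ p ∈ P, p.Prime) {D K : Finset ℕ} (hD : D ∈ fam P R) (hK : K ⊆ D) :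
    K ∈ fam P R := by
  rw [mem_fam] at hD ⊢
  refine ⟨hK.trans hD.1, le_trans ?_ hD.2⟩
  apply Finset.prod_le_prod_of_subset_of_one_le' hK
  intro p hp _
  exact (hP p (hD.1 hp)).one_lt.le

lemma w_pos (hP : ∀ p ∈ P, p.Prime) (h1 : ∀ p ∈ P, 1 ≤ ρ p) {D : Finset ℕ} (hD : D ⊆ P) :
    0 < w ρ D := by
  apply Finset.prod_pos
  intro p hp
  have := (hP p (hD hp)).pos
  have := h1 p (hD hp)
  positivity

lemma g_pos (h1 : ∀ p ∈ P, 1 ≤ ρ p) (h2 : ∀ p ∈ P, ρ p < p)
    {D : Finset ℕ} (hD : D ⊆ P) : 0 < g ρ D := by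
  apply Finset.prod_pos
  intro p hp
  have e1 := h1 p (hD hp)
  have e2 := h2 p (hD hp)
  have e3 : (0 : ℝ) < p - ρ p := by
    have : (ρ p : ℝ) < p := by exact_mod_cast e2
    linarith
  positivity

lemma empty_mem (hR : 1 ≤ R) : (∅ : Finset ℕ) ∈ fam P R := by
  rw [mem_fam]; simp [hR]

lemma G_pos (hR : 1 ≤ R) (h1 : ∀ p ∈ P, 1 ≤ ρ p) (h2 : ∀ p ∈ P, ρ p < p) : 0 < G P ρ R := by
  unfold G
  apply Finset.sum_pos
  · intro D hD
    exact g_pos h1 h2 (mem_fam.1 hD).1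
  · exact ⟨∅, empty_mem hR⟩

lemma lam_empty (hR : 1 ≤ R) (h1 : ∀ p ∈ P, 1 ≤ ρ p) (h2 : ∀ p ∈ P, ρ p < p) :
    lam P ρ R ∅ = 1 := by
  have := G_pos (R := R) hR h1 h2
  unfold lam
  have e : (fam P R).filter (fun K => (∅ : Finset ℕ) ⊆ K) = fam P R := by
    apply Finset.filter_true_of_mem
    intro K _; exact Finset.empty_subset K
  rw [e]
  have e2 : w ρ ∅ = 1 := by unfold w; simp
  rw [e2]
  have e3 : ∑ K ∈ fam P R, g ρ K = G P ρ R := rfl
  rw [e3]
  simp
  field_simp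

lemma abs_lam_le (hP : ∀ p ∈ P, p.Prime) (hR : 1 ≤ R) (h1 : ∀ p ∈ P, 1 ≤ ρ p)
    (h2 : ∀ p ∈ P, ρ p < p) {D : Finset ℕ} (hD : D ∈ fam P R) :
    |lam P ρ R D| ≤ 1 / w ρ D := by
  have hG := G_pos (R := R) hR h1 h2
  have hw := w_pos hP h1 (mem_fam.1 hD).1
  unfold lam
  rw [abs_mul, abs_mul, abs_pow, abs_neg, abs_one, one_pow, one_mul]
  have hS0 : 0 ≤ ∑ K ∈ (fam P R).filter (fun K => D ⊆ K), g ρ K := by
    apply Finset.sum_nonneg
    intro K hK
    exact (g_pos h1 h2 (mem_fam.1 (Finset.mem_filter.1 hK).1).1).le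
  have hS1 : ∑ K ∈ (fam P R).filter (fun K => D ⊆ K), g ρ K ≤ G P ρ R := by
    unfold G
    apply Finset.sum_le_sum_of_subset_of_nonneg (Finset.filter_subset _ _)
    intro K hK _
    exact (g_pos h1 h2 (mem_fam.1 hK).1).le
  rw [abs_of_nonneg hS0, abs_of_pos (by positivity)]
  rw [div_mul_eq_mul_div, one_mul, div_le_div_iff₀ (by positivity) hw]
  nlinarith

lemma sum_neg_one (L K : Finset ℕ) (hKL : K ⊆ L) :
    ∑ D ∈ (L.powerset).filter (fun D => K ⊆ D), (-1 : ℝ) ^ D.card =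
      if L = K then (-1) ^ K.card else 0 := by
  have e : (L.powerset).filter (fun D => K ⊆ D) = ((L \ K).powerset).image (fun E => K ∪ E) := by
    ext D
    rw [Finset.mem_filter, Finset.mem_powerset, Finset.mem_image]
    constructor
    · rintro ⟨h1, h2⟩
      refine ⟨D \ K, ?_, ?_⟩
      · rw [Finset.mem_powerset]
        exact Finset.sdiff_subset_sdiff h1 (Finset.Subset.refl _)
      · exact Finset.union_sdiff_of_subset h2
    · rintro ⟨E, hE, rfl⟩
      rw [Finset.mem_powerset] at hE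
      refine ⟨Finset.union_subset hKL (hE.trans Finset.sdiff_subset), Finset.subset_union_left⟩
  have hinj : Set.InjOn (fun E => K ∪ E) (((L \ K).powerset : Finset (Finset ℕ)) : Set (Finset ℕ)) := by
    intro E hE F hF hEF
    rw [Finset.mem_coe, Finset.mem_powerset] at hE hF
    have d1 : Disjoint K E := Finset.disjoint_of_subset_right hE Finset.disjoint_sdiff
    have d2 : Disjoint K F := Finset.disjoint_of_subset_right hF Finset.disjoint_sdiff
    have hEF' : K ∪ E = K ∪ F := hEF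
    have := congrArg (fun S => S \ K) hEF'
    simp only [Finset.union_sdiff_cancel_left d1, Finset.union_sdiff_cancel_left d2] at this
    exact this
  rw [e, Finset.sum_image hinj]
  have e2 : ∀ E ∈ (L \ K).powerset, (-1 : ℝ) ^ (K ∪ E).card = (-1) ^ K.card * (-1) ^ E.card := by
    intro E hE
    rw [Finset.mem_powerset] at hE
    have d1 : Disjoint K E := Finset.disjoint_of_subset_right hE Finset.disjoint_sdiff
    rw [Finset.card_union_of_disjoint d1, pow_add]
  rw [Finset.sum_congr rfl e2, ← Finset.mul_sum]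
  have h3 : ∑ m ∈ (L \ K).powerset, (-1 : ℝ) ^ m.card = if L \ K = ∅ then 1 else 0 := by
    have := Finset.sum_powerset_neg_one_pow_card (x := L \ K)
    have h4 := congrArg (fun z : ℤ => (z : ℝ)) this
    push_cast at h4
    exact h4
  rw [h3]
  by_cases h : L = K
  · subst h; simp
  · have : L \ K ≠ ∅ := by
      intro h0
      rw [Finset.sdiff_eq_empty_iff_subset] at h0
      exact h (Finset.Subset.antisymm h0 hKL)
    simp [h, this]

/-- diagonal values. -/
lemma sum_w_lam (hP : ∀ p ∈ P, p.Prime) (hR : 1 ≤ R) (h1 : ∀ p ∈ P, 1 ≤ ρ p)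
    (h2 : ∀ p ∈ P, ρ p < p) {K : Finset ℕ} (hK : K ∈ fam P R) :
    ∑ D ∈ (fam P R).filter (fun D => K ⊆ D), w ρ D * lam P ρ R D =
      (-1) ^ K.card * g ρ K / G P ρ R := by
  have hG := G_pos (R := R) hR h1 h2
  have e1 : ∀ D ∈ (fam P R).filter (fun D => K ⊆ D), w ρ D * lam P ρ R D =
      ∑ L ∈ fam P R, if D ⊆ L then (-1) ^ D.card * g ρ L / G P ρ R else 0 := by
    intro D hD
    have hw := w_pos hP h1 (mem_fam.1 (Finset.mem_filter.1 hD).1).1
    unfold lam
    rw [← Finset.sum_filter]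
    have : ∀ L ∈ (fam P R).filter (fun L => D ⊆ L), (-1 : ℝ) ^ D.card * g ρ L / G P ρ R =
      ((-1 : ℝ) ^ D.card / G P ρ R) * g ρ L := by
      intro L _; ring
    rw [Finset.sum_congr rfl this, ← Finset.mul_sum]
    field_simp
  rw [Finset.sum_congr rfl e1, Finset.sum_comm]
  have e2 : ∀ L ∈ fam P R, (∑ D ∈ (fam P R).filter (fun D => K ⊆ D),
      if D ⊆ L then (-1 : ℝ) ^ D.card * g ρ L / G P ρ R else 0) =
      if L = K then (-1) ^ K.card * g ρ K / G P ρ R else 0 := by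
    intro L hL
    rw [← Finset.sum_filter, Finset.filter_filter]
    by_cases hKL : K ⊆ L
    · have e3 : (fam P R).filter (fun D => K ⊆ D ∧ D ⊆ L) =
          (L.powerset).filter (fun D => K ⊆ D) := by
        ext D
        rw [Finset.mem_filter, Finset.mem_filter, Finset.mem_powerset]
        constructor
        · rintro ⟨_, h3, h4⟩; exact ⟨h4, h3⟩
        · rintro ⟨h3, h4⟩; exact ⟨fam_down hP hL h3, h4, h3⟩
      rw [e3]
      have : ∀ D ∈ (L.powerset).filter (fun D => K ⊆ D), (-1 : ℝ) ^ D.card * g ρ L / G P ρ R =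
        (g ρ L / G P ρ R) * (-1) ^ D.card := by
        intro D _; ring
      rw [Finset.sum_congr rfl this, ← Finset.mul_sum, sum_neg_one L K hKL]
      split_ifs with h
      · subst h; ring
      · ring
    · have e3 : (fam P R).filter (fun D => K ⊆ D ∧ D ⊆ L) = ∅ := by
        apply Finset.filter_false_of_mem
        rintro D _ ⟨h3, h4⟩
        exact hKL (h3.trans h4)
      rw [e3, Finset.sum_empty]
      have : L ≠ K := by
        rintro rfl; exact hKL (Finset.Subset.refl _)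
      simp [this]
  rw [Finset.sum_congr rfl e2]
  simp [hK]

lemma w_union (hP : ∀ p ∈ P, p.Prime) (h1 : ∀ p ∈ P, 1 ≤ ρ p)
    {D E : Finset ℕ} (hD : D ⊆ P) :
    w ρ (D ∪ E) = w ρ D * w ρ E * ∑ K ∈ (D ∩ E).powerset, 1 / g ρ K := by
  have e1 : ∑ K ∈ (D ∩ E).powerset, 1 / g ρ K = 1 / w ρ (D ∩ E) := by
    have : ∀ K ∈ (D ∩ E).powerset, 1 / g ρ K = ∏ p ∈ K, (((p : ℝ) - ρ p) / ρ p) := by
      intro K _
      unfold g
      rw [one_div, ← Finset.prod_inv_distrib]
      apply Finset.prod_congr rfl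
      intro p _
      rw [inv_div]
    rw [Finset.sum_congr rfl this, ← Finset.prod_one_add]
    unfold w
    rw [one_div, ← Finset.prod_inv_distrib]
    apply Finset.prod_congr rfl
    intro p hp
    have hpP : p ∈ P := hD (Finset.mem_inter.1 hp).1
    have e2 := h1 p hpP
    have e3 : (0 : ℝ) < ρ p := by exact_mod_cast e2
    rw [inv_div]
    field_simp
    ring
  have e4 : w ρ (D ∪ E) * w ρ (D ∩ E) = w ρ D * w ρ E := by
    unfold w
    exact Finset.prod_union_inter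
  have hw := w_pos hP h1 (Finset.inter_subset_left.trans hD : D ∩ E ⊆ P)
  rw [e1, ← e4]
  field_simp

/-- the quadratic form equals `1/G`. -/
lemma quad (hP : ∀ p ∈ P, p.Prime) (hR : 1 ≤ R) (h1 : ∀ p ∈ P, 1 ≤ ρ p)
    (h2 : ∀ p ∈ P, ρ p < p) :
    ∑ D ∈ fam P R, ∑ E ∈ fam P R, lam P ρ R D * lam P ρ R E * w ρ (D ∪ E) = 1 / G P ρ R := by
  have hG := G_pos (R := R) hR h1 h2
  have e1 : ∀ D ∈ fam P R, ∀ E, lam P ρ R D * lam P ρ R E * w ρ (D ∪ E) =
      ∑ K ∈ fam P R, if (K ⊆ D ∧ K ⊆ E) then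
        (w ρ D * lam P ρ R D) * (w ρ E * lam P ρ R E) * (1 / g ρ K) else 0 := by
    intro D hD E
    rw [w_union hP h1 (mem_fam.1 hD).1, ← Finset.sum_filter]
    have e2 : (fam P R).filter (fun K => K ⊆ D ∧ K ⊆ E) = (D ∩ E).powerset := by
      ext K
      rw [Finset.mem_filter, Finset.mem_powerset, Finset.subset_inter_iff]
      constructor
      · rintro ⟨_, h⟩; exact h
      · rintro h; exact ⟨fam_down hP hD h.1, h⟩
    rw [e2, ← Finset.mul_sum]
    ring
  have e3 : ∑ D ∈ fam P R, ∑ E ∈ fam P R, lam P ρ R D * lam P ρ R E * w ρ (D ∪ E) =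
      ∑ D ∈ fam P R, ∑ E ∈ fam P R, ∑ K ∈ fam P R, if (K ⊆ D ∧ K ⊆ E) then
        (w ρ D * lam P ρ R D) * (w ρ E * lam P ρ R E) * (1 / g ρ K) else 0 := by
    apply Finset.sum_congr rfl
    intro D hD
    apply Finset.sum_congr rfl
    intro E _
    exact e1 D hD E
  rw [e3]
  have e4 : ∑ D ∈ fam P R, ∑ E ∈ fam P R, ∑ K ∈ fam P R, (if (K ⊆ D ∧ K ⊆ E) then
        (w ρ D * lam P ρ R D) * (w ρ E * lam P ρ R E) * (1 / g ρ K) else 0) =
      ∑ K ∈ fam P R, ∑ D ∈ fam P R, ∑ E ∈ fam P R, (if (K ⊆ D ∧ K ⊆ E) then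
        (w ρ D * lam P ρ R D) * (w ρ E * lam P ρ R E) * (1 / g ρ K) else 0) := by
    have : ∀ D ∈ fam P R, ∑ E ∈ fam P R, ∑ K ∈ fam P R, (if (K ⊆ D ∧ K ⊆ E) then
        (w ρ D * lam P ρ R D) * (w ρ E * lam P ρ R E) * (1 / g ρ K) else 0) =
        ∑ K ∈ fam P R, ∑ E ∈ fam P R, (if (K ⊆ D ∧ K ⊆ E) then
        (w ρ D * lam P ρ R D) * (w ρ E * lam P ρ R E) * (1 / g ρ K) else 0) := by
      intro D _
      exact Finset.sum_comm
    rw [Finset.sum_congr rfl this]
    exact Finset.sum_comm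
  rw [e4]
  have e5 : ∀ K ∈ fam P R, ∑ D ∈ fam P R, ∑ E ∈ fam P R, (if (K ⊆ D ∧ K ⊆ E) then
        (w ρ D * lam P ρ R D) * (w ρ E * lam P ρ R E) * (1 / g ρ K) else 0) =
        g ρ K / G P ρ R ^ 2 := by
    intro K hK
    have hg := g_pos h1 h2 (mem_fam.1 hK).1
    have e6 : ∑ D ∈ fam P R, ∑ E ∈ fam P R, (if (K ⊆ D ∧ K ⊆ E) then
        (w ρ D * lam P ρ R D) * (w ρ E * lam P ρ R E) * (1 / g ρ K) else 0) =
        (∑ D ∈ (fam P R).filter (fun D => K ⊆ D), w ρ D * lam P ρ R D) *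
        (∑ E ∈ (fam P R).filter (fun E => K ⊆ E), w ρ E * lam P ρ R E) * (1 / g ρ K) := by
      rw [Finset.sum_mul_sum, Finset.sum_mul, Finset.sum_filter]
      apply Finset.sum_congr rfl
      intro D _
      split_ifs with hKD
      · rw [Finset.sum_mul, Finset.sum_filter]
        apply Finset.sum_congr rfl
        intro E _
        simp [hKD]
      · apply Finset.sum_eq_zero
        intro E _
        simp [hKD]
    rw [e6, sum_w_lam hP hR h1 h2 hK]
    have e7 : ((-1 : ℝ) ^ K.card) * ((-1 : ℝ) ^ K.card) = 1 := by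
      rw [← mul_pow]; simp
    field_simp
    linear_combination e7
  rw [Finset.sum_congr rfl e5, ← Finset.sum_div]
  have e8 : ∑ K ∈ fam P R, g ρ K = G P ρ R := rfl
  rw [e8]
  field_simp

lemma prod_inj (hP : ∀ p ∈ P, p.Prime) {D E : Finset ℕ} (hD : D ⊆ P) (hE : E ⊆ P)
    (h : ∏ p ∈ D, p = ∏ p ∈ E, p) : D = E := by
  have key : ∀ D : Finset ℕ, D ⊆ P → (∏ p ∈ D, p).primeFactors = D := by
    intro D hD
    exact Nat.primeFactors_prod (fun p hp => hP p (hD hp))
  rw [← key D hD, ← key E hE, h]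

lemma card_fam_le (hP : ∀ p ∈ P, p.Prime) : (fam P R).card ≤ R := by
  have h : (fam P R).card ≤ (Finset.Icc 1 R).card := by
    apply Finset.card_le_card_of_injOn (fun D => ∏ p ∈ D, p)
    · intro D hD
      rw [Finset.mem_coe, mem_fam] at hD
      rw [Finset.mem_coe, Finset.mem_Icc]
      refine ⟨?_, hD.2⟩
      apply Finset.one_le_prod'
      intro p hp
      exact (hP p (hD.1 hp)).one_lt.le
    · intro D hD E hE h
      rw [Finset.mem_coe, mem_fam] at hD hE
      exact prod_inj hP hD.1 hE.1 h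
  simpa using h

/-- Selberg's upper bound sieve. -/
theorem selberg_bound (hP : ∀ p ∈ P, p.Prime) (hR : 1 ≤ R) (h1 : ∀ p ∈ P, 1 ≤ ρ p)
    (h2 : ∀ p ∈ P, ρ p < p) (X : Finset ℕ) (bad : ℕ → ℕ → Prop) [∀ p s, Decidable (bad p s)]
    (n : ℝ) (hN : ∀ D ⊆ P, |((X.filter (fun s => ∀ p ∈ D, bad p s)).card : ℝ) - n * w ρ D| ≤
      ∏ p ∈ D, (ρ p : ℝ)) :
    ((X.filter (fun s => ∀ p ∈ P, ¬ bad p s)).card : ℝ) ≤ n / G P ρ R + (R : ℝ) ^ 4 := by
  classical
  have hG := G_pos (R := R) hR h1 h2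
  -- step 1
  have step1 : ((X.filter (fun s => ∀ p ∈ P, ¬ bad p s)).card : ℝ) ≤
      ∑ s ∈ X, (∑ D ∈ fam P R, if (∀ p ∈ D, bad p s) then lam P ρ R D else 0) ^ 2 := by
    rw [Finset.card_filter]
    push_cast
    apply Finset.sum_le_sum
    intro s _
    split_ifs with hs
    · have : (∑ D ∈ fam P R, if (∀ p ∈ D, bad p s) then lam P ρ R D else 0) = lam P ρ R ∅ := by
        rw [Finset.sum_eq_single_of_mem ∅ (empty_mem hR)]
        · simp
        · intro D hD hne
          obtain ⟨p, hp⟩ := Finset.nonempty_of_ne_empty hne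
          rw [if_neg]
          intro h
          exact hs p ((mem_fam.1 hD).1 hp) (h p hp)
      rw [this, lam_empty hR h1 h2]
      simp
    · positivity
  -- step 2 : expand
  have step2 : ∑ s ∈ X, (∑ D ∈ fam P R, if (∀ p ∈ D, bad p s) then lam P ρ R D else 0) ^ 2 =
      ∑ D ∈ fam P R, ∑ E ∈ fam P R, lam P ρ R D * lam P ρ R E *
        ((X.filter (fun s => ∀ p ∈ D ∪ E, bad p s)).card : ℝ) := by
    have e1 : ∀ s ∈ X, (∑ D ∈ fam P R, if (∀ p ∈ D, bad p s) then lam P ρ R D else 0) ^ 2 =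
        ∑ D ∈ fam P R, ∑ E ∈ fam P R, lam P ρ R D * lam P ρ R E *
          (if (∀ p ∈ D ∪ E, bad p s) then 1 else 0) := by
      intro s _
      rw [sq, Finset.sum_mul_sum]
      apply Finset.sum_congr rfl
      intro D _
      apply Finset.sum_congr rfl
      intro E _
      by_cases hD : ∀ p ∈ D, bad p s
      · by_cases hE : ∀ p ∈ E, bad p s
        · have hU : ∀ p ∈ D ∪ E, bad p s := by
            intro p hp
            rcases Finset.mem_union.1 hp with h | h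
            · exact hD p h
            · exact hE p h
          rw [if_pos hD, if_pos hE, if_pos hU, mul_one]
        · have hU : ¬ ∀ p ∈ D ∪ E, bad p s := by
            intro h; exact hE (fun p hp => h p (Finset.mem_union_right _ hp))
          rw [if_neg hE, if_neg hU]; simp
      · have hU : ¬ ∀ p ∈ D ∪ E, bad p s := by
          intro h; exact hD (fun p hp => h p (Finset.mem_union_left _ hp))
        rw [if_neg hD, if_neg hU]; simp
    rw [Finset.sum_congr rfl e1, Finset.sum_comm]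
    apply Finset.sum_congr rfl
    intro D _
    rw [Finset.sum_comm]
    apply Finset.sum_congr rfl
    intro E _
    rw [← Finset.mul_sum]
    congr 1
    rw [Finset.card_filter]
    push_cast
    rfl
  -- step 3 : bound the terms
  have step3 : ∀ D ∈ fam P R, ∀ E ∈ fam P R, lam P ρ R D * lam P ρ R E *
        ((X.filter (fun s => ∀ p ∈ D ∪ E, bad p s)).card : ℝ) ≤
        n * (lam P ρ R D * lam P ρ R E * w ρ (D ∪ E)) + (∏ p ∈ D, (p : ℝ)) * (∏ p ∈ E, (p : ℝ)) := by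
    intro D hD E hE
    have hDP := (mem_fam.1 hD).1
    have hEP := (mem_fam.1 hE).1
    have hU := hN (D ∪ E) (Finset.union_subset hDP hEP)
    have hρpos : ∀ p ∈ P, (1 : ℝ) ≤ ρ p := by
      intro p hp; exact_mod_cast h1 p hp
    have hprod : ∏ p ∈ D ∪ E, (ρ p : ℝ) ≤ (∏ p ∈ D, (ρ p : ℝ)) * (∏ p ∈ E, (ρ p : ℝ)) := by
      rw [← Finset.prod_union_inter (s₁ := D) (s₂ := E)]
      have h3 : (1 : ℝ) ≤ ∏ p ∈ D ∩ E, (ρ p : ℝ) := by
        apply Finset.one_le_prod
        intro p hp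
        exact hρpos p (hDP (Finset.mem_inter.1 hp).1)
      have h4 : (0 : ℝ) ≤ ∏ p ∈ D ∪ E, (ρ p : ℝ) := by
        apply Finset.prod_nonneg
        intro p _
        positivity
      nlinarith
    have hlD := abs_lam_le hP hR h1 h2 hD
    have hlE := abs_lam_le hP hR h1 h2 hE
    have hwD := w_pos hP h1 hDP
    have hwE := w_pos hP h1 hEP
    have hrw : ∀ D ⊆ P, (∏ p ∈ D, (ρ p : ℝ)) = w ρ D * ∏ p ∈ D, (p : ℝ) := by
      intro D hD
      unfold w
      rw [← Finset.prod_mul_distrib]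
      apply Finset.prod_congr rfl
      intro p hp
      have : (p : ℝ) ≠ 0 := by exact_mod_cast (hP p (hD hp)).ne_zero
      field_simp
    have hprodpos : ∀ D : Finset ℕ, (0 : ℝ) ≤ ∏ p ∈ D, (p : ℝ) := by
      intro D
      apply Finset.prod_nonneg
      intro p _
      positivity
    have hbD : |lam P ρ R D| * (∏ p ∈ D, (ρ p : ℝ)) ≤ ∏ p ∈ D, (p : ℝ) := by
      rw [hrw D hDP]
      calc |lam P ρ R D| * (w ρ D * ∏ p ∈ D, (p : ℝ)) ≤
            (1 / w ρ D) * (w ρ D * ∏ p ∈ D, (p : ℝ)) := by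
            apply mul_le_mul_of_nonneg_right hlD
            exact mul_nonneg hwD.le (hprodpos D)
        _ = ∏ p ∈ D, (p : ℝ) := by field_simp
    have hbE : |lam P ρ R E| * (∏ p ∈ E, (ρ p : ℝ)) ≤ ∏ p ∈ E, (p : ℝ) := by
      rw [hrw E hEP]
      calc |lam P ρ R E| * (w ρ E * ∏ p ∈ E, (p : ℝ)) ≤
            (1 / w ρ E) * (w ρ E * ∏ p ∈ E, (p : ℝ)) := by
            apply mul_le_mul_of_nonneg_right hlE
            exact mul_nonneg hwE.le (hprodpos E)
        _ = ∏ p ∈ E, (p : ℝ) := by field_simp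
    set N : ℝ := ((X.filter (fun s => ∀ p ∈ D ∪ E, bad p s)).card : ℝ) with hNdef
    have e1 : lam P ρ R D * lam P ρ R E * N = n * (lam P ρ R D * lam P ρ R E * w ρ (D ∪ E)) +
        lam P ρ R D * lam P ρ R E * (N - n * w ρ (D ∪ E)) := by ring
    rw [e1]
    have e2 : lam P ρ R D * lam P ρ R E * (N - n * w ρ (D ∪ E)) ≤
        (∏ p ∈ D, (p : ℝ)) * (∏ p ∈ E, (p : ℝ)) := by
      calc lam P ρ R D * lam P ρ R E * (N - n * w ρ (D ∪ E)) ≤
            |lam P ρ R D * lam P ρ R E * (N - n * w ρ (D ∪ E))| := le_abs_self _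
        _ = |lam P ρ R D| * |lam P ρ R E| * |N - n * w ρ (D ∪ E)| := by rw [abs_mul, abs_mul]
        _ ≤ |lam P ρ R D| * |lam P ρ R E| * ((∏ p ∈ D, (ρ p : ℝ)) * (∏ p ∈ E, (ρ p : ℝ))) := by
            apply mul_le_mul_of_nonneg_left (hU.trans hprod) (by positivity)
        _ = (|lam P ρ R D| * (∏ p ∈ D, (ρ p : ℝ))) * (|lam P ρ R E| * (∏ p ∈ E, (ρ p : ℝ))) := by
            ring
        _ ≤ _ := by
            apply mul_le_mul hbD hbE
            · apply mul_nonneg (abs_nonneg _)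
              apply Finset.prod_nonneg
              intro p _
              positivity
            · exact hprodpos D
    linarith
  have step4 : (∑ D ∈ fam P R, ∏ p ∈ D, (p : ℝ)) ≤ (R : ℝ) * R := by
    calc (∑ D ∈ fam P R, ∏ p ∈ D, (p : ℝ)) ≤ ∑ D ∈ fam P R, (R : ℝ) := by
          apply Finset.sum_le_sum
          intro D hD
          have h' : ((∏ p ∈ D, p : ℕ) : ℝ) ≤ (R : ℝ) := Nat.cast_le.2 (mem_fam.1 hD).2
          rw [Nat.cast_prod] at h'
          exact h'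
      _ = (fam P R).card * (R : ℝ) := by rw [Finset.sum_const, nsmul_eq_mul]
      _ ≤ R * R := by
          apply mul_le_mul_of_nonneg_right _ (by positivity)
          exact_mod_cast card_fam_le hP
  have step4' : 0 ≤ (∑ D ∈ fam P R, ∏ p ∈ D, (p : ℝ)) := by
    apply Finset.sum_nonneg
    intro D _
    apply Finset.prod_nonneg
    intro p _
    positivity
  calc ((X.filter (fun s => ∀ p ∈ P, ¬ bad p s)).card : ℝ) ≤ _ := step1
    _ = _ := step2
    _ ≤ ∑ D ∈ fam P R, ∑ E ∈ fam P R, (n * (lam P ρ R D * lam P ρ R E * w ρ (D ∪ E)) +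
          (∏ p ∈ D, (p : ℝ)) * (∏ p ∈ E, (p : ℝ))) := by
        apply Finset.sum_le_sum
        intro D hD
        apply Finset.sum_le_sum
        intro E hE
        exact step3 D hD E hE
    _ = n * (∑ D ∈ fam P R, ∑ E ∈ fam P R, lam P ρ R D * lam P ρ R E * w ρ (D ∪ E)) +
        (∑ D ∈ fam P R, ∏ p ∈ D, (p : ℝ)) * (∑ E ∈ fam P R, ∏ p ∈ E, (p : ℝ)) := by
        rw [Finset.sum_mul_sum, Finset.mul_sum, ← Finset.sum_add_distrib]
        apply Finset.sum_congr rfl
        intro D _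
        rw [Finset.mul_sum, ← Finset.sum_add_distrib]
    _ = n / G P ρ R + (∑ D ∈ fam P R, ∏ p ∈ D, (p : ℝ)) * (∑ E ∈ fam P R, ∏ p ∈ E, (p : ℝ)) := by
        rw [quad hP hR h1 h2]; ring
    _ ≤ n / G P ρ R + (R : ℝ) ^ 4 := by
        have : (∑ D ∈ fam P R, ∏ p ∈ D, (p : ℝ)) * (∑ E ∈ fam P R, ∏ p ∈ E, (p : ℝ)) ≤
            ((R : ℝ) * R) * ((R : ℝ) * R) := by
          apply mul_le_mul step4 step4 step4' (by positivity)
        have e : (R : ℝ) ^ 4 = ((R : ℝ) * R) * ((R : ℝ) * R) := by ring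
        rw [e]
        linarith

end Pool.Agent.Helper9.Selberg
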