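import Mathlib
import Pool.Agent.Helper9.Selberg
import Pool.Agent.Helper9.ChiSum

/-!
Lower bound for the Selberg sum `G`.
-/

open Finset

namespace Pool.Agent.Helper9.GLower

open Selberg ChiSum

/-- number of forbidden residue classes. -/
def rho (p : ℕ) : ℕ := if p % 4 = 1 then 2 else 1

lemma G_zero (P : Finset ℕ) (ρ : ℕ → ℕ) (hP : ∀ p ∈ P, p.Prime) : G P ρ 0 = 0 := by
  unfold G
  have : fam P 0 = ∅ := by
    apply Finset.eq_empty_of_forall_notMem
    intro D hD
    rw [mem_fam] at hD
    have : 0 < ∏ p ∈ D, p := Finset.prod_pos (fun p hp => (hP p (hD.1 hp)).pos)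
    omega
  rw [this, Finset.sum_empty]

lemma G_insert {P : Finset ℕ} (ρ : ℕ → ℕ) {p : ℕ} (hp : p.Prime) (hpP : p ∉ P) (x : ℕ) :
    G (insert p P) ρ x = G P ρ x + (ρ p : ℝ) / ((p : ℝ) - ρ p) * G P ρ (x / p) := by
  classical
  have e : fam (insert p P) x = fam P x ∪ (fam P (x / p)).image (fun D => insert p D) := by
    ext D
    rw [Finset.mem_union, Finset.mem_image]
    constructor
    · intro hD
      rw [mem_fam] at hD
      by_cases hd : p ∈ D
      · right
        refine ⟨D.erase p, ?_, Finset.insert_erase hd⟩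
        rw [mem_fam]
        refine ⟨?_, ?_⟩
        · intro q hq
          have h1 := hD.1 (Finset.mem_of_mem_erase hq)
          rw [Finset.mem_insert] at h1
          rcases h1 with h1 | h1
          · exact absurd h1 (Finset.ne_of_mem_erase hq)
          · exact h1
        · rw [Nat.le_div_iff_mul_le hp.pos, Finset.prod_erase_mul _ _ hd]
          exact hD.2
      · left
        rw [mem_fam]
        refine ⟨?_, hD.2⟩
        intro q hq
        have h1 := hD.1 hq
        rw [Finset.mem_insert] at h1
        rcases h1 with h1 | h1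
        · subst h1; exact absurd hq hd
        · exact h1
    · rintro (hD | ⟨E, hE, rfl⟩)
      · rw [mem_fam] at hD ⊢
        exact ⟨hD.1.trans (Finset.subset_insert _ _), hD.2⟩
      · rw [mem_fam] at hE ⊢
        refine ⟨Finset.insert_subset_insert _ hE.1, ?_⟩
        rw [Finset.prod_insert (fun h => hpP (hE.1 h))]
        have := (Nat.le_div_iff_mul_le hp.pos).1 hE.2
        rwa [mul_comm]
  have hdisj : Disjoint (fam P x) ((fam P (x / p)).image (fun D => insert p D)) := by
    rw [Finset.disjoint_left]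
    intro D hD hD'
    rw [Finset.mem_image] at hD'
    obtain ⟨E, _, rfl⟩ := hD'
    rw [mem_fam] at hD
    exact hpP (hD.1 (Finset.mem_insert_self _ _))
  unfold G
  rw [e, Finset.sum_union hdisj, Finset.sum_image, Finset.mul_sum]
  · congr 1
    apply Finset.sum_congr rfl
    intro D hD
    rw [mem_fam] at hD
    unfold g
    rw [Finset.prod_insert (fun h => hpP (hD.1 h))]
  · intro D hD E hE hDE
    rw [Finset.mem_coe, mem_fam] at hD hE
    have h1 : p ∉ D := fun h => hpP (hD.1 h)
    have h2 : p ∉ E := fun h => hpP (hE.1 h)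
    have h3 : insert p D = insert p E := hDE
    rw [← Finset.erase_insert h1, ← Finset.erase_insert h2, h3]

lemma fam_mono {P : Finset ℕ} {x y : ℕ} (h : x ≤ y) : fam P x ⊆ fam P y := by
  intro D hD
  rw [mem_fam] at hD ⊢
  exact ⟨hD.1, hD.2.trans h⟩

lemma G_mono {P : Finset ℕ} {ρ : ℕ → ℕ} (h1 : ∀ p ∈ P, 1 ≤ ρ p) (h2 : ∀ p ∈ P, ρ p < p)
    {x y : ℕ} (h : x ≤ y) : G P ρ x ≤ G P ρ y := by
  unfold G
  apply Finset.sum_le_sum_of_subset_of_nonneg (fam_mono h)
  intro D hD _
  exact (g_pos h1 h2 (mem_fam.1 hD).1).le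

lemma rho_pos (p : ℕ) : 1 ≤ rho p := by
  unfold rho; split_ifs <;> norm_num

lemma rho_lt {p : ℕ} (hp : p.Prime) : rho p < p := by
  unfold rho
  have := hp.two_le
  split_ifs with h
  · have : p ≠ 2 := by rintro rfl; norm_num at h
    omega
  · omega

/-- constants. -/
noncomputable def c (q : ℕ) : ℝ := if q % 4 = 1 then 1 else if q = 2 then 2 else (1 - 1 / (q : ℝ) ^ 2)⁻¹

lemma c_pos {q : ℕ} (hq : q.Prime) : 0 < c q := by
  unfold c
  split_ifs with h1 h2
  · norm_num
  · norm_num
  · have h3 : (2 : ℝ) ≤ q := by exact_mod_cast hq.two_le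
    have h4 : 1 / (q : ℝ) ^ 2 < 1 := by
      rw [div_lt_one (by positivity)]; nlinarith
    have : 0 < 1 - 1 / (q : ℝ) ^ 2 := by linarith
    positivity

/-- comparison of `T` and `G`. -/
lemma T_le_G (S : Finset ℕ) (hS : ∀ p ∈ S, p.Prime) :
    ∀ x, T F S x ≤ (∏ q ∈ S, c q) * G (S.filter (fun p => p % 4 = 1)) rho x := by
  classical
  induction S using Finset.induction_on with
  | empty =>
    intro x
    rw [Finset.prod_empty, one_mul, Finset.filter_empty]
    rcases Nat.eq_zero_or_pos x with h | h
    · subst h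
      rw [G_zero _ _ (by simp)]
      unfold T K
      simp
    · have e1 : K ∅ x = {1} := by
        ext k
        rw [mem_K, Finset.mem_singleton, Finset.subset_empty]
        constructor
        · rintro ⟨⟨h1, _⟩, h3⟩
          rw [Nat.primeFactors_eq_empty] at h3
          omega
        · rintro rfl
          simp; omega
      have e2 : fam (∅ : Finset ℕ) x = {∅} := by
        ext D
        rw [mem_fam, Finset.mem_singleton, Finset.subset_empty]
        constructor
        · exact fun h => h.1
        · rintro rfl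
          simp; omega
      unfold T G
      rw [e1, e2, Finset.sum_singleton, Finset.sum_singleton]
      unfold F g
      rw [r_mult.map_one]
      simp
  | insert p S hpS ih =>
    intro x
    have hp : p.Prime := hS p (Finset.mem_insert_self _ _)
    have hS' : ∀ q ∈ S, q.Prime := fun q hq => hS q (Finset.mem_insert_of_mem hq)
    have ih' := ih hS'
    have hC : 0 ≤ ∏ q ∈ S, c q := Finset.prod_nonneg (fun q hq => (c_pos (hS' q hq)).le)
    rw [Finset.prod_insert hpS]
    by_cases h1 : p % 4 = 1
    · have hc : c p = 1 := by unfold c; rw [if_pos h1]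
      rw [hc, one_mul, Finset.filter_insert, if_pos h1,
        G_insert rho hp (fun h => hpS (Finset.mem_filter.1 h).1)]
      have h3 := T_insert_one hp h1 hpS x
      have h4 := ih' x
      have h5 := ih' (x / p)
      have hrho : rho p = 2 := by unfold rho; rw [if_pos h1]
      rw [hrho]
      have hp5 : (2 : ℝ) < p := by
        have := hp.two_le
        have h6 : p ≠ 2 := by rintro rfl; norm_num at h1
        have h7 : 2 < p := by omega
        exact_mod_cast h7
      have h8 : 0 ≤ 2 / ((p : ℝ) - 2) := by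
        apply div_nonneg (by norm_num); linarith
      have h9 := mul_le_mul_of_nonneg_left h5 h8
      push_cast
      calc T F (insert p S) x ≤ _ := h3
        _ ≤ (∏ q ∈ S, c q) * G (S.filter (fun p => p % 4 = 1)) rho x +
            2 / ((p : ℝ) - 2) * ((∏ q ∈ S, c q) * G (S.filter (fun p => p % 4 = 1)) rho (x / p)) := by
            linarith
        _ = _ := by ring
    · rw [Finset.filter_insert, if_neg h1]
      by_cases h2 : p = 2
      · subst h2
        have hc : c 2 = 2 := by unfold c; norm_num
        rw [hc]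
        have h3 := T_insert_two hpS x
        have h4 := ih' x
        linarith
      · have h3 : p % 4 = 3 := by
          have := hp.eq_two_or_odd
          omega
        have hc : c p = (1 - 1 / (p : ℝ) ^ 2)⁻¹ := by unfold c; rw [if_neg h1, if_neg h2]
        have h4 := T_insert_three hp h3 hpS x
        have h5 := ih' x
        have h6 : 0 < c p := c_pos hp
        rw [hc] at h6 ⊢
        calc T F (insert p S) x ≤ _ := h4
          _ ≤ (1 - 1 / (p : ℝ) ^ 2)⁻¹ * ((∏ q ∈ S, c q) *
              G (S.filter (fun p => p % 4 = 1)) rho x) := by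
              apply mul_le_mul_of_nonneg_left h5 h6.le
          _ = _ := by ring

lemma telescoping (N : ℕ) : ∏ k ∈ Icc 3 (N + 3), (1 - 1 / (k : ℝ) ^ 2)⁻¹ =
    3 * ((N : ℝ) + 3) / (2 * ((N : ℝ) + 4)) := by
  induction N with
  | zero => norm_num
  | succ N ih =>
    rw [show N + 1 + 3 = (N + 3) + 1 by ring, Finset.prod_Icc_succ_top (by omega), ih]
    push_cast
    have h1 : (N : ℝ) + 3 + 1 ≠ 0 := by positivity
    have h2 : 1 - 1 / ((N : ℝ) + 3 + 1) ^ 2 = ((N : ℝ) + 3) * (N + 5) / ((N : ℝ) + 4) ^ 2 := by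
      field_simp
      ring
    rw [h2]
    have h3 : (N : ℝ) + 3 ≠ 0 := by positivity
    have h4 : (N : ℝ) + 4 ≠ 0 := by positivity
    have h5 : (N : ℝ) + 5 ≠ 0 := by positivity
    rw [inv_div]
    have e1 : (N : ℝ) + 1 + 3 = N + 4 := by ring
    have e2 : (N : ℝ) + 1 + 4 = N + 5 := by ring
    rw [e1, e2]
    field_simp

lemma prod_c_le (S : Finset ℕ) (hS : ∀ p ∈ S, p.Prime) : ∏ q ∈ S, c q ≤ 3 := by
  classical
  have hmain : ∀ S : Finset ℕ, (∀ p ∈ S, p.Prime) → 2 ∉ S → ∏ q ∈ S, c q ≤ 3 / 2 := by
    intro S hS h2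
    have h3 : ∏ q ∈ S, c q ≤ ∏ k ∈ Icc 3 (S.sup id + 3), (1 - 1 / (k : ℝ) ^ 2)⁻¹ := by
      have hsub : S ⊆ Icc 3 (S.sup id + 3) := by
        intro q hq
        rw [Finset.mem_Icc]
        have h4 : q ≤ S.sup id := Finset.le_sup (f := id) hq
        have h5 := (hS q hq).two_le
        have h6 : q ≠ 2 := by rintro rfl; exact h2 hq
        omega
      have hone : ∀ k ∈ Icc 3 (S.sup id + 3), 1 ≤ (1 - 1 / (k : ℝ) ^ 2)⁻¹ := by
        intro k hk
        rw [Finset.mem_Icc] at hk
        have h4 : (3 : ℝ) ≤ k := by exact_mod_cast hk.1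
        have h5 : 1 / (k : ℝ) ^ 2 < 1 := by
          rw [div_lt_one (by positivity)]; nlinarith
        have h6 : 0 < 1 / (k : ℝ) ^ 2 := by positivity
        rw [one_le_inv₀ (by linarith)]
        linarith
      calc ∏ q ∈ S, c q ≤ ∏ q ∈ S, (1 - 1 / (q : ℝ) ^ 2)⁻¹ := by
            apply Finset.prod_le_prod
            · intro q hq; exact (c_pos (hS q hq)).le
            · intro q hq
              have h1 := hone q (hsub hq)
              unfold c
              split_ifs with h7 h8
              · exact h1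
              · exact absurd (h8 ▸ hq) h2
              · exact le_refl _
        _ ≤ ∏ k ∈ Icc 3 (S.sup id + 3), (1 - 1 / (k : ℝ) ^ 2)⁻¹ := by
            rw [← Finset.prod_sdiff hsub]
            have h8 : 1 ≤ ∏ k ∈ Icc 3 (S.sup id + 3) \ S, (1 - 1 / (k : ℝ) ^ 2)⁻¹ := by
              apply Finset.one_le_prod
              intro k hk
              exact hone k (Finset.mem_sdiff.1 hk).1
            have h9 : 0 ≤ ∏ q ∈ S, (1 - 1 / (q : ℝ) ^ 2)⁻¹ := by
              apply Finset.prod_nonneg
              intro q hq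
              linarith [hone q (hsub hq)]
            nlinarith
    rw [telescoping] at h3
    refine h3.trans ?_
    rw [div_le_div_iff₀ (by positivity) (by norm_num)]
    have : (0 : ℝ) ≤ (S.sup id : ℕ) := Nat.cast_nonneg _
    nlinarith
  by_cases h2 : 2 ∈ S
  · rw [← Finset.mul_prod_erase S c h2]
    have hc : c 2 = 2 := by unfold c; norm_num
    rw [hc]
    have := hmain (S.erase 2) (fun p hp => hS p (Finset.mem_of_mem_erase hp)) (Finset.notMem_erase _ _)
    linarith
  · have := hmain S hS h2
    linarith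

end Pool.Agent.Helper9.GLower
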