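import Mathlib
import Pool.Agent.Helper9.ChiSum
import Pool.Agent.Helper9.ChiHarm
import Pool.Agent.Helper9.GLower

/-!
The product of `(1 - 1/q)⁻¹` over primes `q ≡ 3 (mod 4)` is unbounded, and consequences for the
Selberg sum.
-/

open Finset

namespace Pool.Agent.Helper9.PrimesThree

open ChiSum ChiHarm GLower Selberg

/-- `1/k`. -/
noncomputable def H (k : ℕ) : ℝ := 1 / (k : ℝ)

lemma H_nonneg (k : ℕ) : 0 ≤ H k := by unfold H; positivity

lemma TH_insert {S : Finset ℕ} {p : ℕ} (hp : p.Prime) (hpS : p ∉ S) (x : ℕ) :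
    T H (insert p S) x ≤ (1 - 1 / (p : ℝ))⁻¹ * T H S x := by
  have h1 := T_split H hp hpS x
  have h2 : ∑ k ∈ K (insert p S) (x / p), H (p * k) ≤ 1 / (p : ℝ) * T H (insert p S) x := by
    have : ∑ k ∈ K (insert p S) (x / p), H (p * k) = 1 / (p : ℝ) * T H (insert p S) (x / p) := by
      unfold T
      rw [Finset.mul_sum]
      apply Finset.sum_congr rfl
      intro k _
      unfold H
      push_cast
      rw [div_mul_div_comm, one_mul]
    rw [this]
    apply mul_le_mul_of_nonneg_left _ (by positivity)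
    exact T_mono H_nonneg (Nat.div_le_self _ _)
  have hp2 : (2 : ℝ) ≤ p := by exact_mod_cast hp.two_le
  have h3 : 0 < 1 - 1 / (p : ℝ) := by
    have : 1 / (p : ℝ) < 1 := by
      rw [div_lt_one (by positivity)]; linarith
    linarith
  rw [inv_mul_eq_div, le_div_iff₀ h3]
  linarith

lemma TH_union (S Q : Finset ℕ) (hQ : ∀ q ∈ Q, q.Prime) (hd : Disjoint Q S) (x : ℕ) :
    T H (Q ∪ S) x ≤ (∏ q ∈ Q, (1 - 1 / (q : ℝ))⁻¹) * T H S x := by
  classical
  induction Q using Finset.induction_on with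
  | empty => simp
  | insert p Q hpQ ih =>
    have hp : p.Prime := hQ p (Finset.mem_insert_self _ _)
    rw [Finset.disjoint_insert_left] at hd
    have ih' := ih (fun q hq => hQ q (Finset.mem_insert_of_mem hq)) hd.2
    rw [Finset.insert_union, Finset.prod_insert hpQ]
    have h1 : p ∉ Q ∪ S := by
      rw [Finset.mem_union, not_or]; exact ⟨hpQ, hd.1⟩
    have h2 := TH_insert hp h1 x
    have hp2 : (2 : ℝ) ≤ p := by exact_mod_cast hp.two_le
    have h3 : 0 < 1 - 1 / (p : ℝ) := by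
      have : 1 / (p : ℝ) < 1 := by
        rw [div_lt_one (by positivity)]; linarith
      linarith
    calc T H (insert p (Q ∪ S)) x ≤ _ := h2
      _ ≤ (1 - 1 / (p : ℝ))⁻¹ * ((∏ q ∈ Q, (1 - 1 / (q : ℝ))⁻¹) * T H S x) := by
          apply mul_le_mul_of_nonneg_left ih'; positivity
      _ = _ := by ring

lemma mod_four_of_factors (d : ℕ) (hd : d ≠ 0) (h : ∀ p ∈ d.primeFactors, p % 4 = 1) :
    d % 4 = 1 := by
  induction d using Nat.strong_induction_on with
  | _ d ih =>
    by_cases h1 : d = 1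
    · subst h1; rfl
    · have hp := Nat.minFac_prime h1
      obtain ⟨e, he⟩ := Nat.minFac_dvd d
      have he0 : e ≠ 0 := by
        rintro rfl; rw [mul_zero] at he; exact hd he
      have hlt : e < d := by
        have := hp.two_le
        rw [he]
        nlinarith [Nat.pos_of_ne_zero he0]
      have hsub : e.primeFactors ⊆ d.primeFactors := by
        apply Nat.primeFactors_mono _ hd
        rw [he]; exact Dvd.intro_left _ rfl
      have h2 := ih e hlt he0 (fun p hp => h p (hsub hp))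
      have h3 : d.minFac % 4 = 1 := by
        apply h
        rw [Nat.mem_primeFactors]
        exact ⟨hp, Nat.minFac_dvd d, hd⟩
      rw [he, Nat.mul_mod, h2, h3]

/-- squares. -/
lemma TH_sq (S : Finset ℕ) (hS : ∀ p ∈ S, p % 4 = 1) (N : ℕ) :
    (T H S N) ^ 2 ≤ ∑ k ∈ Ioc 0 (N ^ 2), F k := by
  classical
  unfold T
  rw [sq, Finset.sum_mul_sum, ← Finset.sum_product']
  have hmap : ∀ x ∈ K S N ×ˢ K S N, x.1 * x.2 ∈ Ioc 0 (N ^ 2) := by
    intro x hx
    rw [Finset.mem_product, mem_K, mem_K] at hx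
    rw [Finset.mem_Ioc, sq]
    constructor
    · apply Nat.mul_pos <;> omega
    · exact Nat.mul_le_mul hx.1.1.2 hx.2.1.2
  rw [← Finset.sum_fiberwise_of_maps_to hmap]
  apply Finset.sum_le_sum
  intro k hk
  rw [Finset.mem_Ioc] at hk
  have e1 : ∑ x ∈ (K S N ×ˢ K S N).filter (fun x => x.1 * x.2 = k), H x.1 * H x.2 =
      (((K S N ×ˢ K S N).filter (fun x => x.1 * x.2 = k)).card : ℝ) / k := by
    have : ∀ x ∈ (K S N ×ˢ K S N).filter (fun x => x.1 * x.2 = k), H x.1 * H x.2 = 1 / (k : ℝ) := by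
      intro x hx
      rw [Finset.mem_filter] at hx
      unfold H
      rw [← hx.2]
      push_cast
      rw [div_mul_div_comm, one_mul]
    rw [Finset.sum_congr rfl this, Finset.sum_const, nsmul_eq_mul]
    ring
  rw [e1]
  rcases ((K S N ×ˢ K S N).filter (fun x => x.1 * x.2 = k)).eq_empty_or_nonempty with h | h
  · rw [h]; simpa using F_nonneg k
  · obtain ⟨x, hx⟩ := h
    rw [Finset.mem_filter, Finset.mem_product, mem_K, mem_K] at hx
    have hk0 : k ≠ 0 := by omega
    have hkS : k.primeFactors ⊆ S := by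
      rw [← hx.2, Nat.primeFactors_mul (by omega) (by omega)]
      exact Finset.union_subset hx.1.1.2 hx.1.2.2
    have hr : r k = k.divisors.card := by
      rw [r_apply]
      have : ∀ d ∈ k.divisors, chi d = 1 := by
        intro d hd
        rw [Nat.mem_divisors] at hd
        apply chi_one
        apply mod_four_of_factors d (fun h => by subst h; simp at hd)
        intro p hp
        exact hS p (hkS (Nat.primeFactors_mono hd.1 hk0 hp))
      rw [Finset.sum_congr rfl this]; simp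
    unfold F
    rw [hr]
    have hcard : ((K S N ×ˢ K S N).filter (fun x => x.1 * x.2 = k)).card ≤ k.divisors.card := by
      apply Finset.card_le_card_of_injOn (fun x => x.1)
      · intro y hy
        rw [Finset.mem_coe, Finset.mem_filter] at hy
        rw [Finset.mem_coe, Nat.mem_divisors]
        exact ⟨Dvd.intro _ hy.2, hk0⟩
      · intro y hy z hz hyz
        rw [Finset.mem_coe, Finset.mem_filter, Finset.mem_product, mem_K, mem_K] at hy hz
        have h1 : y.1 = z.1 := hyz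
        have h2 : y.1 * y.2 = y.1 * z.2 := by rw [hy.2, h1, hz.2]
        have h3 : y.2 = z.2 := Nat.eq_of_mul_eq_mul_left (by omega) h2
        exact Prod.ext h1 h3
    have hk' : (0 : ℝ) < k := by exact_mod_cast hk.1
    rw [div_le_div_iff_of_pos_right hk']
    exact_mod_cast hcard

/-- primes `≡ 3 (mod 4)` below `M`. -/
def P3 (M : ℕ) : Finset ℕ := (range M).filter (fun p => p.Prime ∧ p % 4 = 3)

/-- primes `≡ 1 (mod 4)` below `M`. -/
def P1 (M : ℕ) : Finset ℕ := (range M).filter (fun p => p.Prime ∧ p % 4 = 1)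

lemma mem_P3 {M p : ℕ} : p ∈ P3 M ↔ p < M ∧ p.Prime ∧ p % 4 = 3 := by
  unfold P3; rw [Finset.mem_filter, Finset.mem_range]

lemma mem_P1 {M p : ℕ} : p ∈ P1 M ↔ p < M ∧ p.Prime ∧ p % 4 = 1 := by
  unfold P1; rw [Finset.mem_filter, Finset.mem_range]

lemma key_ineq (N : ℕ) (hN : 2 ≤ N) :
    (Real.log (N + 1)) ^ 2 ≤ 4 * (∏ q ∈ P3 (N + 1), (1 - 1 / (q : ℝ))⁻¹) ^ 2 *
      (1 + 2 * Real.log N) := by
  classical
  set U := ∏ q ∈ P3 (N + 1), (1 - 1 / (q : ℝ))⁻¹ with hU
  have e : (range (N + 1)).filter Nat.Prime = (insert 2 (P3 (N + 1))) ∪ P1 (N + 1) := by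
    ext p
    rw [Finset.mem_filter, Finset.mem_range, Finset.mem_union, Finset.mem_insert, mem_P3, mem_P1]
    constructor
    · rintro ⟨h1, h2⟩
      have := h2.eq_two_or_odd
      by_cases h3 : p = 2
      · left; left; exact h3
      · have : p % 4 = 1 ∨ p % 4 = 3 := by omega
        rcases this with h | h
        · right; exact ⟨h1, h2, h⟩
        · left; right; exact ⟨h1, h2, h⟩
    · rintro ((rfl | h) | h)
      · exact ⟨by omega, Nat.prime_two⟩
      · exact ⟨h.1, h.2.1⟩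
      · exact ⟨h.1, h.2.1⟩
  have h2n : 2 ∉ P3 (N + 1) := by
    intro h
    have := (mem_P3.1 h).2.2
    omega
  have h1 := T_primes H N (N + 1) (Nat.lt_succ_self N)
  have hdisj : Disjoint (insert 2 (P3 (N + 1))) (P1 (N + 1)) := by
    rw [Finset.disjoint_left]
    intro p hp hp'
    rw [Finset.mem_insert, mem_P3] at hp
    rw [mem_P1] at hp'
    rcases hp with rfl | hp
    · omega
    · omega
  have h2 := TH_union (P1 (N + 1)) (insert 2 (P3 (N + 1))) (by
    intro q hq
    rw [Finset.mem_insert, mem_P3] at hq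
    rcases hq with rfl | hq
    · exact Nat.prime_two
    · exact hq.2.1) hdisj N
  rw [← e, h1, Finset.prod_insert h2n] at h2
  have h3 : Real.log (N + 1) ≤ ∑ k ∈ Ioc 0 N, H k := by
    have := log_add_one_le_harmonic N
    have h4 := harm N
    push_cast at this
    unfold H
    rw [h4]
    exact this
  have h5 := TH_sq (P1 (N + 1)) (fun p hp => (mem_P1.1 hp).2.2) N
  have h6 := upper (N ^ 2)
  have h7 : Real.log ((N ^ 2 : ℕ) : ℝ) = 2 * Real.log N := by
    push_cast; rw [Real.log_pow]; norm_num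
  rw [h7] at h6
  have h8 : Real.log (N + 1) ≤ 2 * U * T H (P1 (N + 1)) N := by
    refine (h3.trans h2).trans (le_of_eq ?_)
    have e2 : (1 - 1 / ((2 : ℕ) : ℝ))⁻¹ = 2 := by norm_num
    rw [e2]
  have h9 : 0 ≤ Real.log (N + 1) := by
    apply Real.log_nonneg
    have : (0 : ℝ) ≤ N := Nat.cast_nonneg N
    linarith
  calc (Real.log (N + 1)) ^ 2 ≤ (2 * U * T H (P1 (N + 1)) N) ^ 2 := by
        apply pow_le_pow_left₀ h9 h8
    _ = 4 * U ^ 2 * (T H (P1 (N + 1)) N) ^ 2 := by ring
    _ ≤ 4 * U ^ 2 * (1 + 2 * Real.log N) := by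
        apply mul_le_mul_of_nonneg_left (h5.trans h6) (by positivity)

lemma U_nonneg (M : ℕ) : 0 < ∏ q ∈ P3 M, (1 - 1 / (q : ℝ))⁻¹ := by
  apply Finset.prod_pos
  intro q hq
  rw [mem_P3] at hq
  have hp2 : (2 : ℝ) ≤ q := by exact_mod_cast hq.2.1.two_le
  have h3 : 0 < 1 - 1 / (q : ℝ) := by
    have : 1 / (q : ℝ) < 1 := by
      rw [div_lt_one (by positivity)]; linarith
    linarith
  positivity

/-- unboundedness. -/
lemma exists_large (B : ℝ) : ∃ M, B ≤ ∏ q ∈ P3 M, (1 - 1 / (q : ℝ))⁻¹ := by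
  -- choose N with log N ≥ 1 and log N ≥ 12 B^2
  obtain ⟨N, hN⟩ := exists_nat_ge (Real.exp (12 * B ^ 2 + 1))
  have hpos : 0 < Real.exp (12 * B ^ 2 + 1) := Real.exp_pos _
  have h1 : 12 * B ^ 2 + 1 ≤ Real.log N := by
    rw [Real.le_log_iff_exp_le (by linarith)]
    exact hN
  have h2 : 2 ≤ N := by
    have : (2 : ℝ) ≤ N := by
      have h3 := Real.add_one_le_exp (12 * B ^ 2 + 1)
      nlinarith [sq_nonneg B]
    exact_mod_cast this
  refine ⟨N + 1, ?_⟩
  have h3 := key_ineq N h2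
  set U := ∏ q ∈ P3 (N + 1), (1 - 1 / (q : ℝ))⁻¹ with hU
  have hU0 : 0 < U := U_nonneg _
  have h4 : Real.log N ≤ Real.log (N + 1) := by
    apply Real.log_le_log
    · have : (2 : ℝ) ≤ N := by exact_mod_cast h2
      linarith
    · linarith
  have hB : 0 ≤ B ^ 2 := sq_nonneg B
  have h5 : (Real.log N) ^ 2 ≤ (Real.log (N + 1)) ^ 2 := by
    apply pow_le_pow_left₀ (by linarith) h4
  have h6 : (Real.log N) ^ 2 ≤ 4 * U ^ 2 * (3 * Real.log N) := by
    refine (h5.trans h3).trans ?_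
    apply mul_le_mul_of_nonneg_left _ (by positivity)
    linarith
  have h7 : Real.log N ≤ 12 * U ^ 2 := by
    have hl : 0 < Real.log N := by linarith
    nlinarith
  have h8 : B ^ 2 ≤ U ^ 2 := by linarith
  exact le_of_sq_le_sq h8 hU0.le

/-- lower bound for the Selberg sum after adding the primes of `Q`. -/
lemma G_union (S Q : Finset ℕ) (hS : ∀ p ∈ S, p.Prime) (hQ : ∀ q ∈ Q, q.Prime ∧ q % 4 = 3)
    (hd : Disjoint Q S) : ∀ x : ℕ,
    (∏ q ∈ Q, (1 - 1 / (q : ℝ))⁻¹) * G S rho (x / ∏ q ∈ Q, q) ≤ G (Q ∪ S) rho x := by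
  classical
  induction Q using Finset.induction_on with
  | empty => intro x; simp
  | insert p Q hpQ ih =>
    intro x
    have hp : p.Prime := (hQ p (Finset.mem_insert_self _ _)).1
    have hp3 : p % 4 = 3 := (hQ p (Finset.mem_insert_self _ _)).2
    rw [Finset.disjoint_insert_left] at hd
    have ih' := ih (fun q hq => hQ q (Finset.mem_insert_of_mem hq)) hd.2
    rw [Finset.insert_union, Finset.prod_insert hpQ, Finset.prod_insert hpQ]
    have h1 : p ∉ Q ∪ S := by
      rw [Finset.mem_union, not_or]; exact ⟨hpQ, hd.1⟩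
    have hall : ∀ q ∈ Q ∪ S, q.Prime := by
      intro q hq
      rw [Finset.mem_union] at hq
      rcases hq with h | h
      · exact (hQ q (Finset.mem_insert_of_mem h)).1
      · exact hS q h
    rw [G_insert rho hp h1]
    have h2 : G (Q ∪ S) rho (x / p) ≤ G (Q ∪ S) rho x :=
      G_mono (fun q _ => rho_pos q) (fun q hq => rho_lt (hall q hq)) (Nat.div_le_self _ _)
    have h3 := ih' (x / p)
    rw [Nat.div_div_eq_div_mul] at h3
    have hrho : rho p = 1 := by unfold rho; rw [if_neg (by omega)]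
    rw [hrho]
    have hp2 : (3 : ℝ) ≤ p := by
      have : 3 ≤ p := by have := hp.two_le; omega
      exact_mod_cast this
    have e : (1 - 1 / (p : ℝ))⁻¹ = 1 + ((1 : ℕ) : ℝ) / ((p : ℝ) - ((1 : ℕ) : ℝ)) := by
      push_cast
      have h4 : (p : ℝ) - 1 ≠ 0 := by linarith
      have h5 : (p : ℝ) ≠ 0 := by linarith
      have h6 : 1 - 1 / (p : ℝ) = ((p : ℝ) - 1) / p := by field_simp
      rw [h6, inv_div]
      field_simp
      ring
    rw [e]
    have h7 : 0 ≤ ((1 : ℕ) : ℝ) / ((p : ℝ) - ((1 : ℕ) : ℝ)) := by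
      push_cast
      apply div_nonneg (by norm_num); linarith
    calc (1 + ((1 : ℕ) : ℝ) / ((p : ℝ) - ((1 : ℕ) : ℝ))) * (∏ q ∈ Q, (1 - 1 / (q : ℝ))⁻¹) *
          G S rho (x / (p * ∏ q ∈ Q, q))
        = (1 + ((1 : ℕ) : ℝ) / ((p : ℝ) - ((1 : ℕ) : ℝ))) * ((∏ q ∈ Q, (1 - 1 / (q : ℝ))⁻¹) *
          G S rho (x / (p * ∏ q ∈ Q, q))) := by ring
      _ ≤ (1 + ((1 : ℕ) : ℝ) / ((p : ℝ) - ((1 : ℕ) : ℝ))) * G (Q ∪ S) rho (x / p) := by
          apply mul_le_mul_of_nonneg_left h3; linarith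
      _ = G (Q ∪ S) rho (x / p) + ((1 : ℕ) : ℝ) / ((p : ℝ) - ((1 : ℕ) : ℝ)) *
            G (Q ∪ S) rho (x / p) := by ring
      _ ≤ _ := by linarith

/-- lower bound for `G` of the primes `≡ 1 (mod 4)`. -/
lemma G_P1 (N M : ℕ) (h : N < M) : 2 / 9 * Real.log (N + 1) ≤ G (P1 M) rho N := by
  have h1 := lower N
  rw [← T_primes F N M h] at h1
  have hpr : ∀ p ∈ (range M).filter Nat.Prime, p.Prime := fun p hp => (Finset.mem_filter.1 hp).2
  have h2 := T_le_G ((range M).filter Nat.Prime) hpr N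
  have h3 := prod_c_le ((range M).filter Nat.Prime) hpr
  have e : ((range M).filter Nat.Prime).filter (fun p => p % 4 = 1) = P1 M := by
    unfold P1; rw [Finset.filter_filter]
  rw [e] at h2
  have h4 : 0 ≤ G (P1 M) rho N := by
    unfold G
    apply Finset.sum_nonneg
    intro D hD
    exact (g_pos (P := P1 M) (fun q _ => rho_pos q) (fun q hq => rho_lt (mem_P1.1 hq).2.1)
      (mem_fam.1 hD).1).le
  have h5 : (∏ q ∈ (range M).filter Nat.Prime, c q) * G (P1 M) rho N ≤ 3 * G (P1 M) rho N :=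
    mul_le_mul_of_nonneg_right h3 h4
  linarith

end Pool.Agent.Helper9.PrimesThree
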