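import Mathlib
import Pool.Agent.Helper38.CLF

set_option autoImplicit false

/-!
# Continuum many countable complete locally finite groups

A strengthening of `Pool.Agent.Helper38.CLF.main`.
-/

namespace Pool.Agent.Helper9.CLFMany

open Function Pool.Agent.Helper38.Moebius Pool.Agent.Helper38.Klein Pool.Agent.Helper38.Glue
  Pool.Agent.Helper38.CLF

/-- The gluing theorem, with the orders of the elements. -/
theorem glue' (S : ℕ → Type) [∀ i, Group (S i)] [∀ i, Finite (S i)] {F : Type} [Group F] [Finite F]
    (ι : ∀ i, F →* S i) (p : ℕ → ℕ)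
    (hι : ∀ i, Injective (ι i))
    (hcop : ∀ i j, i ≠ j → (Nat.card (S j)).Coprime (p i))
    (hcent : ∀ i, ∀ s : S i, (∀ u : S i, u ^ p i = 1 → s * u = u * s) → s = 1)
    (hnontriv : ∀ i, Nontrivial (S i))
    (hcompl : ∀ i, ∀ φ : S i ≃* S i, ∃ t : S i, ∀ s, φ s = t * s * t⁻¹)
    (hnorm : ∀ i, ∀ t : S i, (∀ f : F, ∃ f' : F, t * ι i f * t⁻¹ = ι i f') → ∃ f : F, t = ι i f)
    (hZ : ∀ z : F, (∀ f : F, z * f = f * z) → z = 1) :
    ∃ (G : Type) (_ : Group G), Countable G ∧ Infinite G ∧
      (∀ s : Finset G, ((Subgroup.closure (s : Set G) : Subgroup G) : Set G).Finite) ∧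
      Subgroup.center G = ⊥ ∧
      (∀ φ : MulAut G, ∃ g : G, φ = MulAut.conj g) ∧
      ∀ q : ℕ, (∃ u : G, u ≠ 1 ∧ u ^ q = 1) ↔ ∃ i, ∃ s : S i, s ≠ 1 ∧ s ^ q = 1 := by
  classical
  refine ⟨glued S ι, inferInstance, ?_, ?_, ?_, ?_, ?_, ?_⟩
  · -- countable
    have : ((glued S ι : Subgroup (∀ i, S i)) : Set (∀ i, S i)) = ⋃ n, (level S ι n : Set _) := by
      ext g
      simp only [SetLike.mem_coe, Set.mem_iUnion]
      exact Iff.rfl
    have hc : ((glued S ι : Subgroup (∀ i, S i)) : Set (∀ i, S i)).Countable := by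
      rw [this]
      exact Set.countable_iUnion fun n => (level_finite n).countable
    exact hc.to_subtype
  · -- infinite
    choose x hx using fun i => exists_ne (1 : S i)
    refine Infinite.of_injective
      (fun i : ℕ => (⟨Pi.mulSingle i (x i), mulSingle_mem_glued i (x i)⟩ : glued S ι)) ?_
    intro i j h
    by_contra hij
    have h1 := congrFun (congrArg Subtype.val h) i
    simp only [Pi.mulSingle_eq_same, Pi.mulSingle_eq_of_ne hij] at h1
    exact hx i h1
  · -- locally finite
    intro s
    -- find a common level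
    have hlev : ∃ n, ∀ g ∈ s, (g : ∀ i, S i) ∈ level S ι n := by
      induction s using Finset.induction_on with
      | empty => exact ⟨0, by simp⟩
      | insert a s _ ih =>
        obtain ⟨n, hn⟩ := ih
        obtain ⟨m, hm⟩ := a.2
        refine ⟨max n m, fun g hg => ?_⟩
        rcases Finset.mem_insert.mp hg with rfl | hg
        · exact level_mono (le_max_right _ _) hm
        · exact level_mono (le_max_left _ _) (hn g hg)
    obtain ⟨n, hn⟩ := hlev
    have hle : Subgroup.closure (s : Set (glued S ι)) ≤ (level S ι n).comap (glued S ι).subtype := by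
      rw [Subgroup.closure_le]
      intro g hg
      exact hn g hg
    have hfin : ((fun g : glued S ι => (g : ∀ i, S i)) ⁻¹'
        ((level S ι n : Subgroup (∀ i, S i)) : Set (∀ i, S i))).Finite :=
      Set.Finite.preimage (Subtype.val_injective.injOn) (level_finite n)
    exact hfin.subset fun g hg => hle hg
  · -- centre
    rw [eq_bot_iff]
    intro z hz
    rw [Subgroup.mem_center_iff] at hz
    rw [Subgroup.mem_bot]
    apply Subtype.ext
    funext i
    refine hcent i _ fun u _ => ?_
    have := congrFun (congrArg Subtype.val (hz ⟨Pi.mulSingle i u, mulSingle_mem_glued i u⟩)) i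
    simpa using this.symm
  · -- automorphisms
    intro φ
    -- Step 2
    have key : ∀ (ψ : MulAut (glued S ι)) (i : ℕ) (g : glued S ι), (g : ∀ i, S i) i = 1 →
        (ψ g : ∀ i, S i) i = 1 := by
      intro ψ i g hg
      refine hcent i _ fun u hu => ?_
      set U : glued S ι := ⟨Pi.mulSingle i u, mulSingle_mem_glued i u⟩ with hU
      have hUp : U ^ p i = 1 := by
        apply Subtype.ext
        simp only [hU, SubmonoidClass.mk_pow, ← Pi.mulSingle_pow, hu, Pi.mulSingle_one]
        rfl
      set V := ψ.symm U with hV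
      have hVp : V ^ p i = 1 := by rw [hV, ← map_pow, hUp, map_one]
      have hVj : ∀ j, j ≠ i → (V : ∀ i, S i) j = 1 := by
        intro j hj
        have h1 : ((V : ∀ i, S i) j) ^ p i = 1 := by
          have := congrFun (congrArg Subtype.val hVp) j
          simpa using this
        have h2 : orderOf ((V : ∀ i, S i) j) ∣ p i := orderOf_dvd_of_pow_eq_one h1
        have h3 : orderOf ((V : ∀ i, S i) j) ∣ Nat.card (S j) := orderOf_dvd_natCard _
        have h4 := Nat.Coprime.eq_one_of_dvd
          ((hcop i j hj.symm).coprime_dvd_left h3) h2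
        exact orderOf_eq_one_iff.mp h4
      have hcomm : g * V = V * g := by
        apply Subtype.ext
        funext j
        by_cases hj : j = i
        · subst hj
          simp [hg]
        · simp [hVj j hj]
      have h5 : ψ g * U = U * ψ g := by
        have := congrArg ψ hcomm
        simpa [hV] using this
      have := congrFun (congrArg Subtype.val h5) i
      simpa [hU] using this
    -- the coordinate automorphisms
    have hα : ∀ i, ∃ t : S i, ∀ g : glued S ι,
        (φ g : ∀ i, S i) i = t * (g : ∀ i, S i) i * t⁻¹ := by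
      intro i
      let e : S i →* glued S ι :=
        { toFun := fun s => ⟨Pi.mulSingle i s, mulSingle_mem_glued i s⟩
          map_one' := by
            apply Subtype.ext
            simp
          map_mul' := fun a b => by
            apply Subtype.ext
            simp [Pi.mulSingle_mul] }
      have he : ∀ s, ((e s : glued S ι) : ∀ i, S i) i = s := fun s => by simp [e]
      let π : glued S ι →* S i := (Pi.evalMonoidHom S i).comp (glued S ι).subtype
      have hπ : ∀ g : glued S ι, π g = (g : ∀ i, S i) i := fun g => rfl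
      let α : S i →* S i := π.comp (φ.toMonoidHom.comp e)
      have hαs : ∀ s, α s = (φ (e s) : ∀ i, S i) i := fun s => rfl
      have hinj : Injective α := by
        rw [injective_iff_map_eq_one]
        intro s hs
        have := key φ.symm i (φ (e s)) hs
        rw [MulEquiv.symm_apply_apply, he] at this
        exact this
      have hbij : Bijective α := ⟨hinj, Finite.surjective_of_injective hinj⟩
      obtain ⟨t, ht⟩ := hcompl i (MulEquiv.ofBijective α hbij)
      refine ⟨t, fun g => ?_⟩
      have h1 : g = e ((g : ∀ i, S i) i) * ((e ((g : ∀ i, S i) i))⁻¹ * g) := by group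
      have h2 : (((e ((g : ∀ i, S i) i))⁻¹ * g : glued S ι) : ∀ i, S i) i = 1 := by
        simp [he]
      have h3 := key φ i _ h2
      have h4 : (φ g : ∀ i, S i) i = α ((g : ∀ i, S i) i) := by
        conv_lhs => rw [h1]
        rw [map_mul, Subgroup.coe_mul, Pi.mul_apply, h3, mul_one]
        rfl
      rw [h4]
      exact ht _
    choose t ht using hα
    have htG : t ∈ glued S ι := by
      -- common level
      have hex : ∀ f : F, ∃ n, ∃ f' : F, ∀ i, n ≤ i → t i * ι i f * (t i)⁻¹ = ι i f' := by
        intro f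
        obtain ⟨n, f', h⟩ := (φ ⟨_, const_mem_glued (ι := ι) f⟩).2
        refine ⟨n, f', fun i hi => ?_⟩
        rw [← h i hi, ht]
      choose n σ hσ using hex
      have : ∃ N, ∀ f, n f ≤ N := by
        cases nonempty_fintype F
        exact ⟨Finset.univ.sup n, fun f => Finset.le_sup (Finset.mem_univ f)⟩
      obtain ⟨N, hN⟩ := this
      have hσ' : ∀ f, ∀ i, N ≤ i → t i * ι i f * (t i)⁻¹ = ι i (σ f) :=
        fun f i hi => hσ f i ((hN f).trans hi)
      have hs : ∀ i, N ≤ i → ∃ s : F, t i = ι i s := fun i hi =>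
        hnorm i (t i) fun f => ⟨σ f, hσ' f i hi⟩
      choose! s hs using hs
      have hsσ : ∀ i, N ≤ i → ∀ f, s i * f * (s i)⁻¹ = σ f := by
        intro i hi f
        apply hι i
        rw [← hσ' f i hi, hs i hi]
        simp
      refine ⟨N, s N, fun i hi => ?_⟩
      rw [hs i hi]
      congr 1
      have hz : (s N)⁻¹ * s i = 1 := by
        refine hZ _ fun f => ?_
        have h1 := hsσ i hi f
        rw [← hsσ N le_rfl f] at h1
        have h2 : s i * f = s N * f * (s N)⁻¹ * s i := by
          rw [← h1]; group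
        rw [mul_assoc, h2]; group
      have := congrArg (fun x => s N * x) hz
      simpa using this
    refine ⟨⟨t, htG⟩, ?_⟩
    ext g : 1
    apply Subtype.ext
    funext i
    rw [ht]
    rfl
  · -- orders
    intro q
    constructor
    · rintro ⟨u, hu1, huq⟩
      by_contra hcon
      push Not at hcon
      apply hu1
      apply Subtype.ext
      funext i
      by_contra hi
      refine hcon i ((u : ∀ i, S i) i) hi ?_
      have := congrFun (congrArg Subtype.val huq) i
      simpa using this
    · rintro ⟨i, s, hs1, hsq⟩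
      refine ⟨⟨Pi.mulSingle i s, mulSingle_mem_glued i s⟩, ?_, ?_⟩
      · intro h
        have := congrFun (congrArg Subtype.val h) i
        simp only [Pi.mulSingle_eq_same, Subgroup.coe_one, Pi.one_apply] at this
        exact hs1 this
      · apply Subtype.ext
        simp only [SubmonoidClass.mk_pow, ← Pi.mulSingle_pow, hsq, Pi.mulSingle_one]
        rfl

/-- The groups of all infinite subsequences. -/
theorem family : ∃ Q : ℕ → ℕ, ∀ g : ℕ → ℕ, Injective g →
    ∃ (G : Type) (_ : Group G), Countable G ∧ Infinite G ∧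
      (∀ s : Finset G, ((Subgroup.closure (s : Set G) : Subgroup G) : Set G).Finite) ∧
      Subgroup.center G = ⊥ ∧
      (∀ φ : MulAut G, ∃ g : G, φ = MulAut.conj g) ∧
      ∀ m : ℕ, (∃ u : G, u ≠ 1 ∧ u ^ Q m = 1) ↔ m ∈ Set.range g := by
  obtain ⟨P, hP, hPP⟩ := exists_primes
  have : ∀ j, Fact (P j).Prime := fun j => ⟨(hP j).1⟩
  have hne2 : ∀ j, P j ≠ 2 := fun j => by have := (hP j).2.1; omega
  have htwo : ∀ j, (2 : ZMod (P j)) ≠ 0 := fun j => two_ne_zero' (hne2 j)
  have hi : ∀ j, ∃ i : ZMod (P j), i * i = -1 := by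
    intro j
    have h1 : IsSquare (-1 : ZMod (P j)) := by
      rw [ZMod.exists_sq_eq_neg_one_iff]
      have := (hP j).2.2
      omega
    obtain ⟨i, hi⟩ := h1
    exact ⟨i, hi.symm⟩
  choose i hi using hi
  let O : ∀ j, Oct (Mob (ZMod (P j))) := fun j => oct (i j) (hi j) (htwo j)
  have hfin : ∀ j, Finite (Mob (ZMod (P j))) := fun j => inferInstance
  obtain ⟨i0, f, hf, hiso⟩ := pigeon (fun j => (O j).H) 1024 (fun j => (O j).card_H_le)
  have e : ∀ k, ((O i0).H ≃* (O (f k)).H) := fun k => Classical.choice (hiso k)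
  have hcop : ∀ a b, a ≠ b → (Nat.card (Mob (ZMod (P b)))).Coprime (P a) := by
    intro a b hab
    refine coprime_card (hP _).1 (hP _).2.1 ?_
    rcases Nat.lt_or_gt_of_ne hab with h | h
    · exact Or.inr (hPP _ _ h).2
    · exact Or.inl (hPP _ _ h).1
  have hcent : ∀ j, ∀ s : Mob (ZMod (P j)),
      (∀ u : Mob (ZMod (P j)), u ^ P j = 1 → s * u = u * s) → s = 1 := by
    intro j s hs
    apply Subtype.ext
    apply eq_one_of_commute (p := P j)
    intro u hu hup
    have := hs ⟨u, hu⟩ (Subtype.ext (by simpa using hup))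
    exact congrArg Subtype.val this
  have hnt : ∀ j, Nontrivial (Mob (ZMod (P j))) := fun j => ⟨⟨_, _, (O j).ha⟩⟩
  refine ⟨fun m => P (f m), fun g hg => ?_⟩
  obtain ⟨G, instG, h1, h2, h3, h4, h5, h6⟩ := glue' (fun k => Mob (ZMod (P (f (g k)))))
    (F := (O i0).H)
    (fun k => ((O (f (g k))).H.subtype).comp (e (g k)).toMonoidHom) (fun k => P (f (g k)))
    (by
      intro k x y hxy
      apply (e (g k)).injective
      exact Subtype.ext hxy)
    (by
      intro k l hkl
      exact hcop _ _ fun h => hkl (hg (hf h)))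
    (fun k => hcent _) (fun k => hnt _)
    (fun k φ => complete (hne2 _) φ)
    (by
      intro k t ht
      have h1 : t ∈ (O (f (g k))).H := by
        apply (O (f (g k))).self_normalizing
        intro x hx
        obtain ⟨f', hf'⟩ := ht ((e (g k)).symm ⟨x, hx⟩)
        have h2 : (((O (f (g k))).H.subtype).comp (e (g k)).toMonoidHom)
            ((e (g k)).symm ⟨x, hx⟩) = x := by
          simp
        rw [h2] at hf'
        rw [hf']
        exact ((e (g k)) f').2
      refine ⟨(e (g k)).symm ⟨t, h1⟩, ?_⟩
      simp)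
    (by
      intro z hz
      apply Subtype.ext
      apply (O i0).center_trivial
      intro x hx
      exact congrArg Subtype.val (hz ⟨x, hx⟩))
  refine ⟨G, instG, h1, h2, h3, h4, h5, fun m => ?_⟩
  rw [h6]
  constructor
  · rintro ⟨k, s, hs1, hs2⟩
    by_contra hcon
    apply hs1
    have hne : f m ≠ f (g k) := fun h => hcon ⟨k, (hf h).symm⟩
    have a2 : orderOf s ∣ P (f m) := orderOf_dvd_of_pow_eq_one hs2
    have a3 : orderOf s ∣ Nat.card (Mob (ZMod (P (f (g k))))) := orderOf_dvd_natCard _
    have a4 := Nat.Coprime.eq_one_of_dvd ((hcop _ _ hne).coprime_dvd_left a3) a2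
    exact orderOf_eq_one_iff.mp a4
  · rintro ⟨k, rfl⟩
    by_contra hcon
    push Not at hcon
    obtain ⟨s, hs⟩ := @exists_ne _ (hnt (f (g k))) (1 : Mob (ZMod (P (f (g k)))))
    apply hs
    apply hcent
    intro u hu
    by_cases hu1 : u = 1
    · rw [hu1, mul_one, one_mul]
    · exact absurd hu (hcon k u hu1)

/-- Continuum many groups. -/
theorem many : ∃ (G : Set ℕ → Type) (_ : ∀ A, Group (G A)),
    (∀ A, Countable (G A) ∧ Infinite (G A) ∧
      (∀ s : Finset (G A), ((Subgroup.closure (s : Set (G A)) : Subgroup (G A)) :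
        Set (G A)).Finite) ∧
      Subgroup.center (G A) = ⊥ ∧ ∀ φ : MulAut (G A), ∃ g : G A, φ = MulAut.conj g) ∧
    ∀ A B, Nonempty (G A ≃* G B) → A = B := by
  classical
  obtain ⟨Q, hQ⟩ := family
  have hg : ∀ A : Set ℕ, ∃ g : ℕ → ℕ, Injective g ∧ ∀ n, 2 * n ∈ Set.range g ↔ n ∈ A := by
    intro A
    have hinf : {m : ℕ | m % 2 = 1 ∨ m / 2 ∈ A}.Infinite := by
      refine Set.infinite_of_injective_forall_mem (f := fun n : ℕ => 2 * n + 1) ?_ ?_
      · intro a b hab
        simp only at hab
        omega
      · intro n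
        left
        omega
    have : Infinite {m : ℕ | m % 2 = 1 ∨ m / 2 ∈ A} := hinf.to_subtype
    refine ⟨Nat.orderEmbeddingOfSet {m : ℕ | m % 2 = 1 ∨ m / 2 ∈ A},
      (Nat.orderEmbeddingOfSet _).injective, fun n => ?_⟩
    rw [Nat.orderEmbeddingOfSet_range]
    constructor
    · rintro (h | h)
      · omega
      · have : 2 * n / 2 = n := by omega
        rwa [this] at h
    · intro h
      right
      have : 2 * n / 2 = n := by omega
      rwa [this]
  choose g hgi hgA using hg
  choose G instG h using fun A => hQ (g A) (hgi A)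
  refine ⟨G, instG, fun A => ⟨(h A).1, (h A).2.1, (h A).2.2.1, (h A).2.2.2.1, (h A).2.2.2.2.1⟩,
    ?_⟩
  rintro A B ⟨φ⟩
  ext n
  rw [← hgA A n, ← hgA B n, ← (h A).2.2.2.2.2 (2 * n), ← (h B).2.2.2.2.2 (2 * n)]
  constructor
  · rintro ⟨u, hu1, hu2⟩
    refine ⟨φ u, ?_, ?_⟩
    · rw [Ne, EmbeddingLike.map_eq_one_iff]
      exact hu1
    · rw [← map_pow, hu2, map_one]
  · rintro ⟨u, hu1, hu2⟩
    refine ⟨φ.symm u, ?_, ?_⟩
    · rw [Ne, EmbeddingLike.map_eq_one_iff]
      exact hu1
    · rw [← map_pow, hu2, map_one]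

end Pool.Agent.Helper9.CLFMany
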