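import Mathlib
import Pool.Prelude.Def_F_287e12c6
import Pool.Agent.Helper9.Selberg
import Pool.Agent.Helper9.CountCRT
import Pool.Agent.Helper9.PrimesThree

/-!
Existence of `n > 1` with `5 a(n) < π(n)`.
-/

open Finset

namespace Pool.Agent.Helper9.Disproof

open Selberg CountCRT GLower PrimesThree

/-- sieve upper bound for `a`. -/
lemma a_le (Q : Finset ℕ) (hQ : ∀ q ∈ Q, q.Prime ∧ q % 4 = 3) (m0 k n R : ℕ)
    (hm0 : m0 = ∏ q ∈ Q, q) (hm : 2 ≤ m0) (hk : 1 ≤ k) (hR : R = m0 ^ k) (hn : n = R ^ 5) :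
    (N8bd1f7c7.a n : ℝ) ≤ n / G (Q ∪ P1 (R + 1)) rho R + (R : ℝ) ^ 4 := by
  classical
  have hRpos : 2 ≤ R := by
    rw [hR]
    calc 2 ≤ m0 := hm
      _ = m0 ^ 1 := (pow_one _).symm
      _ ≤ m0 ^ k := Nat.pow_le_pow_right (by omega) hk
  have hm0R : m0 ≤ R := by
    rw [hR]
    calc m0 = m0 ^ 1 := (pow_one _).symm
      _ ≤ m0 ^ k := Nat.pow_le_pow_right (by omega) hk
  have hdvd : ∀ p : ℕ, p.Prime → (p ∣ n ↔ p ∈ Q) := by
    intro p hp
    constructor
    · intro h
      rw [hn, hR] at h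
      have h1 := hp.dvd_of_dvd_pow (hp.dvd_of_dvd_pow h)
      rw [hm0, Prime.dvd_finsetProd_iff hp.prime] at h1
      obtain ⟨q, hq, h2⟩ := h1
      rwa [(Nat.prime_dvd_prime_iff_eq hp (hQ q hq).1).1 h2]
    · intro h
      rw [hn, hR, hm0]
      apply dvd_pow _ (by norm_num)
      apply dvd_pow _ (by omega)
      exact Finset.dvd_prod_of_mem _ h
  set P := Q ∪ P1 (R + 1) with hP
  have hPp : ∀ p ∈ P, p.Prime := by
    intro p hp
    rw [hP, Finset.mem_union] at hp
    rcases hp with h | h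
    · exact (hQ p h).1
    · exact (mem_P1.1 h).2.1
  have hPle : ∀ p ∈ P, p ≤ R := by
    intro p hp
    rw [hP, Finset.mem_union] at hp
    rcases hp with h | h
    · calc p ≤ m0 := by
            rw [hm0]
            apply Nat.le_of_dvd
            · exact Finset.prod_pos (fun q hq => (hQ q hq).1.pos)
            · exact Finset.dvd_prod_of_mem _ h
        _ ≤ R := hm0R
    · have := (mem_P1.1 h).1
      omega
  have hcard : ∀ p ∈ P, (Z n p).card = rho p := by
    intro p hp
    have hpp := hPp p hp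
    rw [hP, Finset.mem_union] at hp
    by_cases hpQ : p ∈ Q
    · rw [card_Z_of_dvd hpp ((hdvd p hpp).2 hpQ)]
      unfold rho
      rw [if_neg]
      have := (hQ p hpQ).2
      omega
    · rcases hp with h | h
      · exact absurd h hpQ
      · have h1 := (mem_P1.1 h).2.2
        rw [card_Z_of_one hpp h1 (fun h2 => hpQ ((hdvd p hpp).1 h2))]
        unfold rho
        rw [if_pos h1]
  have hsel := selberg_bound (P := P) (ρ := rho) (R := R) hPp (by omega)
    (fun p _ => rho_pos p) (fun p hp => rho_lt (hPp p hp)) (range n)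
    (fun p s => s % p ∈ Z n p) (n : ℝ) (by
      intro D hD
      have h1 := count_sets (D := D) (fun p hp => hPp p (hD hp)) (Z n)
        (fun p _ => Z_subset n p) n
      have e1 : ∏ p ∈ D, ((Z n p).card : ℝ) / p = w rho D := by
        unfold w
        apply Finset.prod_congr rfl
        intro p hp
        rw [hcard p (hD hp)]
      have e2 : ∏ p ∈ D, ((Z n p).card : ℝ) = ∏ p ∈ D, (rho p : ℝ) := by
        apply Finset.prod_congr rfl
        intro p hp
        rw [hcard p (hD hp)]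
      rw [e1, e2] at h1
      exact h1)
  refine le_trans ?_ hsel
  have : N8bd1f7c7.a n ≤ ((range n).filter (fun s => ∀ p ∈ P, ¬ s % p ∈ Z n p)).card := by
    unfold N8bd1f7c7.a
    rw [← Finset.card_filter]
    apply Finset.card_le_card
    intro s hs
    rw [Finset.mem_filter, Finset.mem_Ico] at hs
    rw [Finset.mem_filter, Finset.mem_range]
    refine ⟨hs.1.2, ?_⟩
    intro p hp h
    rw [mem_Z_mod n p s (hPp p hp).pos] at h
    have h1 := (Nat.prime_dvd_prime_iff_eq (hPp p hp) hs.2).1 h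
    have h2 := hPle p hp
    have h3 : R < n ^ 2 := by
      rw [hn]
      calc R = R ^ 1 := (pow_one _).symm
        _ < R ^ 10 := Nat.pow_lt_pow_right (by omega) (by norm_num)
        _ = (R ^ 5) ^ 2 := by ring
    have h4 : n ^ 2 ≤ n ^ 2 + s ^ 2 := Nat.le_add_right _ _
    omega
  exact_mod_cast this

/-- the counterexample. -/
theorem exists_counterexample : ∃ n : ℕ, 1 < n ∧ 5 * N8bd1f7c7.a n < Nat.primeCounting n := by
  classical
  obtain ⟨M, hM⟩ := exists_large 1000
  set U := ∏ q ∈ P3 M, (1 - 1 / (q : ℝ))⁻¹ with hU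
  set m0 := ∏ q ∈ P3 M, q with hm0
  have hQ : ∀ q ∈ P3 M, q.Prime ∧ q % 4 = 3 := fun q hq => (mem_P3.1 hq).2
  have hne : (P3 M).Nonempty := by
    rw [Finset.nonempty_iff_ne_empty]
    intro h
    rw [hU, h, Finset.prod_empty] at hM
    norm_num at hM
  have hm3 : 3 ≤ m0 := by
    obtain ⟨q, hq⟩ := hne
    have h1 : q ≤ m0 := by
      rw [hm0]
      apply Nat.le_of_dvd
      · exact Finset.prod_pos (fun q hq => (hQ q hq).1.pos)
      · exact Finset.dvd_prod_of_mem _ hq
    have h2 := (hQ q hq).1.two_le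
    have h3 := (hQ q hq).2
    omega
  set R := m0 ^ 8 with hR
  set n := R ^ 5 with hn
  have h1 := a_le (P3 M) hQ m0 8 n R hm0 (by omega) (by norm_num) hR hn
  have hdisj : Disjoint (P3 M) (P1 (R + 1)) := by
    rw [Finset.disjoint_left]
    intro p hp hp'
    have := (mem_P3.1 hp).2.2
    have := (mem_P1.1 hp').2.2
    omega
  have h2 := G_union (P1 (R + 1)) (P3 M) (fun p hp => (mem_P1.1 hp).2.1) hQ hdisj R
  rw [← hm0, ← hU] at h2
  have hdiv : R / m0 = m0 ^ 7 := by
    rw [hR, show m0 ^ 8 = m0 ^ 7 * m0 by ring]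
    exact Nat.mul_div_cancel _ (by omega)
  rw [hdiv] at h2
  have hlt : m0 ^ 7 < R + 1 := by
    rw [hR]
    have : m0 ^ 7 ≤ m0 ^ 8 := Nat.pow_le_pow_right (by omega) (by norm_num)
    omega
  have h3 := G_P1 (m0 ^ 7) (R + 1) hlt
  set x : ℝ := (m0 : ℝ) with hx
  have hx3 : (3 : ℝ) ≤ x := by rw [hx]; exact_mod_cast hm3
  set L := Real.log x with hL
  have hL0 : 0 < L := Real.log_pos (by linarith)
  have hLx : L ≤ x := Real.log_le_self (by linarith)
  have h4 : 7 * L ≤ Real.log (((m0 ^ 7 : ℕ) : ℝ) + 1) := by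
    have e : 7 * L = Real.log (((m0 ^ 7 : ℕ) : ℝ)) := by
      push_cast
      rw [Real.log_pow]; norm_num
      rfl
    rw [e]
    apply Real.log_le_log
    · have : 0 < m0 ^ 7 := Nat.pow_pos (by omega)
      exact_mod_cast this
    · linarith
  have h5 : 14 / 9 * L ≤ G (P1 (R + 1)) rho (m0 ^ 7) := by linarith
  have h6 : 1000 * (14 / 9 * L) ≤ G (P3 M ∪ P1 (R + 1)) rho R := by
    calc 1000 * (14 / 9 * L) ≤ U * G (P1 (R + 1)) rho (m0 ^ 7) := by
          apply mul_le_mul hM h5 (by positivity) (by linarith)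
      _ ≤ _ := h2
  have hnx : (n : ℝ) = x ^ 40 := by
    rw [hn, hR]; push_cast; ring
  have hRx : (R : ℝ) = x ^ 8 := by
    rw [hR]; push_cast; ring
  have hlogn : Real.log (n : ℝ) = 40 * L := by
    rw [hnx, Real.log_pow, ← hL]; norm_num
  have hxpos : 0 < x := by linarith
  have hnpos : 0 < (n : ℝ) := by rw [hnx]; positivity
  have h7 : (N8bd1f7c7.a n : ℝ) ≤ (n : ℝ) / (1000 * (14 / 9 * L)) + (R : ℝ) ^ 4 := by
    refine h1.trans ?_
    have := div_le_div_of_nonneg_left hnpos.le (by positivity) h6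
    linarith
  have h8 := Chebyshev.pi_ge n
  rw [hlogn] at h8
  have hn1 : 1 < n := by
    have : (1 : ℝ) < n := by
      rw [hnx]
      exact one_lt_pow₀ (by linarith) (by norm_num)
    exact_mod_cast this
  refine ⟨n, hn1, ?_⟩
  have hlog2 : (0.6931471803 : ℝ) < Real.log 2 := Real.log_two_gt_d9
  -- log (n+1)
  have h9 : Real.log ((n : ℝ) + 1) ≤ 1 + 40 * x := by
    have h10 : Real.log ((n : ℝ) + 1) ≤ Real.log (2 * n) := by
      apply Real.log_le_log (by linarith)
      have : (1 : ℝ) < n := by exact_mod_cast hn1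
      linarith
    rw [Real.log_mul (by norm_num) hnpos.ne', hlogn] at h10
    have h11 : Real.log 2 ≤ 1 := by
      have := Real.log_two_lt_d9
      linarith
    linarith
  have hx33 : 2187 * x ^ 33 ≤ x ^ 40 := by
    have : (3 : ℝ) ^ 7 ≤ x ^ 7 := pow_le_pow_left₀ (by norm_num) hx3 7
    have h12 : x ^ 40 = x ^ 7 * x ^ 33 := by ring
    rw [h12]
    apply mul_le_mul_of_nonneg_right _ (by positivity)
    linarith
  have hx1 : 1 + 40 * x ≤ x ^ 33 := by
    have h13 : x ^ 33 = x * x ^ 32 := by ring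
    have h14 : (3 : ℝ) ^ 32 ≤ x ^ 32 := pow_le_pow_left₀ (by norm_num) hx3 32
    rw [h13]
    nlinarith
  have hgoal : (5 * N8bd1f7c7.a n : ℝ) < (Nat.primeCounting n : ℝ) := by
    refine lt_of_lt_of_le ?_ h8
    rw [lt_div_iff₀ (by positivity)]
    have h15 : (5 * N8bd1f7c7.a n : ℝ) * (40 * L) ≤
        5 * ((n : ℝ) / (1000 * (14 / 9 * L)) + (R : ℝ) ^ 4) * (40 * L) := by
      apply mul_le_mul_of_nonneg_right _ (by positivity)
      linarith
    have h16 : 5 * ((n : ℝ) / (1000 * (14 / 9 * L)) + (R : ℝ) ^ 4) * (40 * L) =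
        (9 / 70) * n + 200 * L * (R : ℝ) ^ 4 := by
      field_simp
      ring
    rw [h16] at h15
    have h17 : (R : ℝ) ^ 4 = x ^ 32 := by rw [hRx]; ring
    rw [h17] at h15
    have h18 : 200 * L * x ^ 32 ≤ 200 * x ^ 33 := by
      have : x ^ 33 = x * x ^ 32 := by ring
      rw [this]
      have h19 : 0 < x ^ 32 := by positivity
      nlinarith
    have h20 : (n : ℝ) * Real.log 2 ≥ n * 0.6931471803 := by
      apply mul_le_mul_of_nonneg_left hlog2.le hnpos.le
    rw [hnx] at h15 h20 ⊢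
    have h21 : Real.log (x ^ 40 + 1) ≤ x ^ 33 := by
      rw [hnx] at h9
      exact h9.trans hx1
    have h22 : 0 < x ^ 33 := by positivity
    linarith
  exact_mod_cast hgoal

end Pool.Agent.Helper9.Disproof
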