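import Mathlib
import Pool.Prelude.Def_F_287e12c6
import Pool.Agent.Helper9.Disproof

/-!
`K a(n) < π(n)` for every `K` and infinitely many `n`.
-/

open Finset

namespace Pool.Agent.Helper9.LimInf

open Selberg CountCRT GLower PrimesThree Disproof

theorem exists_small (K N : ℕ) (hK : 1 ≤ K) :
    ∃ n : ℕ, N < n ∧ 1 < n ∧ K * N8bd1f7c7.a n < Nat.primeCounting n := by
  classical
  obtain ⟨M, hM⟩ := exists_large (200 * K + N)
  have hK1 : (1 : ℝ) ≤ K := by exact_mod_cast hK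
  have hN0 : (0 : ℝ) ≤ N := Nat.cast_nonneg N
  obtain ⟨U, hU⟩ : ∃ U : ℝ, U = ∏ q ∈ P3 M, (1 - 1 / (q : ℝ))⁻¹ := ⟨_, rfl⟩
  obtain ⟨m0, hm0⟩ : ∃ m0 : ℕ, m0 = ∏ q ∈ P3 M, q := ⟨_, rfl⟩
  rw [← hU] at hM
  have hQ : ∀ q ∈ P3 M, q.Prime ∧ q % 4 = 3 := fun q hq => (mem_P3.1 hq).2
  have hUx : U ≤ (m0 : ℝ) := by
    rw [hU, hm0]
    push_cast
    refine Finset.prod_le_prod (fun q hq => ?_) (fun q hq => ?_)
    · have h2 : (2 : ℝ) ≤ q := by exact_mod_cast (hQ q hq).1.two_le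
      have h3 : 1 / (q : ℝ) ≤ 1 := by
        rw [div_le_one (by linarith)]
        linarith
      exact inv_nonneg.2 (by linarith)
    · have h2 : (2 : ℝ) ≤ q := by exact_mod_cast (hQ q hq).1.two_le
      have h3 : (1 - 1 / (q : ℝ))⁻¹ = q / (q - 1) := by
        have : (q : ℝ) - 1 ≠ 0 := by linarith
        field_simp
      rw [h3, div_le_iff₀ (by linarith)]
      nlinarith
  obtain ⟨x, hx⟩ : ∃ x : ℝ, x = (m0 : ℝ) := ⟨_, rfl⟩
  have hxU : 200 * K + N ≤ x := by
    rw [hx]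
    exact hM.trans hUx
  have hx200 : (200 : ℝ) ≤ x := by linarith
  have hm3 : 3 ≤ m0 := by
    have : (3 : ℝ) ≤ (m0 : ℝ) := by
      rw [← hx]
      linarith
    exact_mod_cast this
  obtain ⟨R, hR⟩ : ∃ R : ℕ, R = m0 ^ 8 := ⟨_, rfl⟩
  obtain ⟨n, hn⟩ : ∃ n : ℕ, n = R ^ 5 := ⟨_, rfl⟩
  have h1 := a_le (P3 M) hQ m0 8 n R hm0 (by omega) (by norm_num) hR hn
  have hdisj : Disjoint (P3 M) (P1 (R + 1)) := by
    rw [Finset.disjoint_left]
    intro p hp hp'
    have := (mem_P3.1 hp).2.2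
    have := (mem_P1.1 hp').2.2
    omega
  have h2 := G_union (P1 (R + 1)) (P3 M) (fun p hp => (mem_P1.1 hp).2.1) hQ hdisj R
  rw [← hm0, ← hU] at h2
  have hdiv : R / m0 = m0 ^ 7 := by
    rw [hR, show m0 ^ 8 = m0 ^ 7 * m0 by ring]
    exact Nat.mul_div_cancel _ (by omega)
  rw [hdiv] at h2
  have hlt : m0 ^ 7 < R + 1 := by
    rw [hR]
    have : m0 ^ 7 ≤ m0 ^ 8 := Nat.pow_le_pow_right (by omega) (by norm_num)
    omega
  have h3 := G_P1 (m0 ^ 7) (R + 1) hlt
  obtain ⟨L, hL⟩ : ∃ L : ℝ, L = Real.log x := ⟨_, rfl⟩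
  have hL0 : 0 < L := by
    rw [hL]
    exact Real.log_pos (by linarith)
  have hLx : L ≤ x := by
    rw [hL]
    exact Real.log_le_self (by linarith)
  have h4 : 7 * L ≤ Real.log (((m0 ^ 7 : ℕ) : ℝ) + 1) := by
    have e : 7 * L = Real.log (((m0 ^ 7 : ℕ) : ℝ)) := by
      push_cast
      rw [Real.log_pow, hL, hx]
      norm_num
    rw [e]
    apply Real.log_le_log
    · have : 0 < m0 ^ 7 := Nat.pow_pos (by omega)
      exact_mod_cast this
    · linarith
  have h5 : 14 / 9 * L ≤ G (P1 (R + 1)) rho (m0 ^ 7) := by linarith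
  have hU0 : 0 < U := by linarith
  have h6 : U * (14 / 9 * L) ≤ G (P3 M ∪ P1 (R + 1)) rho R := by
    calc U * (14 / 9 * L) ≤ U * G (P1 (R + 1)) rho (m0 ^ 7) :=
          mul_le_mul_of_nonneg_left h5 hU0.le
      _ ≤ _ := h2
  have hnx : (n : ℝ) = x ^ 40 := by
    rw [hn, hR, hx]
    push_cast
    ring
  have hRx : (R : ℝ) = x ^ 8 := by
    rw [hR, hx]
    push_cast
    ring
  have hlogn : Real.log (n : ℝ) = 40 * L := by
    rw [hnx, Real.log_pow, ← hL]
    norm_num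
  have hxpos : 0 < x := by linarith
  have hnpos : 0 < (n : ℝ) := by
    rw [hnx]
    positivity
  have h7 : (N8bd1f7c7.a n : ℝ) ≤ (n : ℝ) / (U * (14 / 9 * L)) + (R : ℝ) ^ 4 := by
    refine h1.trans ?_
    have := div_le_div_of_nonneg_left hnpos.le (by positivity) h6
    linarith
  have h8 := Chebyshev.pi_ge n
  rw [hlogn] at h8
  have hxn : x < n := by
    rw [hnx]
    calc x = x ^ 1 := (pow_one x).symm
      _ < x ^ 40 := pow_lt_pow_right₀ (by linarith) (by norm_num)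
  have hn1 : 1 < n := by
    have : (1 : ℝ) < n := by linarith
    exact_mod_cast this
  have hnN : N < n := by
    have : (N : ℝ) < n := by linarith
    exact_mod_cast this
  refine ⟨n, hnN, hn1, ?_⟩
  have hlog2 : (0.6931471803 : ℝ) < Real.log 2 := Real.log_two_gt_d9
  -- log (n+1)
  have h9 : Real.log ((n : ℝ) + 1) ≤ 1 + 40 * x := by
    have h10 : Real.log ((n : ℝ) + 1) ≤ Real.log (2 * n) := by
      apply Real.log_le_log (by linarith)
      have : (1 : ℝ) < n := by exact_mod_cast hn1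
      linarith
    rw [Real.log_mul (by norm_num) hnpos.ne', hlogn] at h10
    have h11 : Real.log 2 ≤ 1 := by
      have := Real.log_two_lt_d9
      linarith
    linarith
  have hx33 : 200 * K * x ^ 33 ≤ x ^ 34 := by
    have h12 : x ^ 34 = x * x ^ 33 := by ring
    rw [h12]
    exact mul_le_mul_of_nonneg_right (by linarith) (by positivity)
  have hx40 : 1000000 * x ^ 34 ≤ x ^ 40 := by
    have h12 : x ^ 40 = x ^ 6 * x ^ 34 := by ring
    have h13 : (200 : ℝ) ^ 6 ≤ x ^ 6 := pow_le_pow_left₀ (by norm_num) hx200 6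
    rw [h12]
    exact mul_le_mul_of_nonneg_right (by linarith) (by positivity)
  have hx1 : 1 + 40 * x ≤ x ^ 34 := by
    have h13 : x ^ 34 = x * x ^ 33 := by ring
    have h14 : (200 : ℝ) ^ 33 ≤ x ^ 33 := pow_le_pow_left₀ (by norm_num) hx200 33
    rw [h13]
    nlinarith
  have hgoal : (K * N8bd1f7c7.a n : ℝ) < (Nat.primeCounting n : ℝ) := by
    refine lt_of_lt_of_le ?_ h8
    rw [lt_div_iff₀ (by positivity)]
    have h15 : (K * N8bd1f7c7.a n : ℝ) * (40 * L) ≤
        K * ((n : ℝ) / (U * (14 / 9 * L)) + (R : ℝ) ^ 4) * (40 * L) := by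
      apply mul_le_mul_of_nonneg_right _ (by positivity)
      exact mul_le_mul_of_nonneg_left h7 (by positivity)
    have h16 : K * ((n : ℝ) / (U * (14 / 9 * L)) + (R : ℝ) ^ 4) * (40 * L) =
        (180 / 7) * (K / U) * n + 40 * K * L * (R : ℝ) ^ 4 := by
      field_simp
      ring
    rw [h16] at h15
    have hKU : (K : ℝ) / U ≤ 1 / 200 := by
      rw [div_le_div_iff₀ hU0 (by norm_num)]
      linarith
    have h17 : (R : ℝ) ^ 4 = x ^ 32 := by
      rw [hRx]
      ring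
    rw [h17] at h15
    have h18 : 40 * K * L * x ^ 32 ≤ 40 * K * x ^ 33 := by
      have h19 : x ^ 33 = x * x ^ 32 := by ring
      rw [h19]
      have h20 : 40 * K * L * x ^ 32 = 40 * K * (L * x ^ 32) := by ring
      rw [h20]
      exact mul_le_mul_of_nonneg_left (mul_le_mul_of_nonneg_right hLx (by positivity))
        (by positivity)
    have h181 : (180 / 7) * (K / U) * n ≤ (180 / 7) * (1 / 200) * n :=
      mul_le_mul_of_nonneg_right (mul_le_mul_of_nonneg_left hKU (by norm_num)) hnpos.le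
    have h20 : (n : ℝ) * Real.log 2 ≥ n * 0.6931471803 := by
      apply mul_le_mul_of_nonneg_left hlog2.le hnpos.le
    rw [hnx] at h15 h20 h181 ⊢
    have h21 : Real.log (x ^ 40 + 1) ≤ x ^ 34 := by
      rw [hnx] at h9
      exact h9.trans hx1
    have h22 : 0 < x ^ 34 := by positivity
    linarith
  exact_mod_cast hgoal

end Pool.Agent.Helper9.LimInf
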